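import Mathlib

set_option autoImplicit false

/-!
# MP_475aca_co, g(n) <= (3/2 + eps) n + C: the interface between (S) and (M)

MODEL. `L` = the labels: two for every element (its two sides) and one for the floor,
`card L = 2 n + 1`. `E` = the elements (an involution, its only fixed point is the floor).
An arrangement of the stack = an involution `Y` with exactly one fixed point (the label on top) such
that `E` and `Y` together are connected; `{x, Y x}` are the adjacencies (the last one is the
adjacency to the floor).

SCHEDULE. `a x` = time at which the adjacency `{x, S x}` is opened, `b x` = time at which the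
adjacency `{x, I x}` is formed, `Kt t x = S x` for `t < a x`, `= x` (loose) for `a x <= t < b x`,
`= I x` for `b x <= t`. So a label changes at the transition `t -> t + 1` iff `a x = t + 1` or
`b x = t + 1`. Times are `0 .. Q`; `b x > Q` means: never formed. Trivial adjacencies `S x = I x`
have `a x = 0` and, up to exceptions, `b x = 0` and never change.

* FAR transition `t` (`t` not in `loc`): the labels of the new adjacencies lie in pairwise distinct
  components of `E, Kt t`. Any adjacencies may be opened.
* LOCAL transition `t` (`t` in `loc`): for every new adjacency `{x, I x}`, both `{x, S x}` and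
  `{I x, S (I x)}` are opened at the same transition (alpha), `x` and `I x` are in the same
  component of `E, Kt t`, at most one new adjacency per component, nothing else is opened. One of the
  two labels is called first, `P x`; it is such that `x` and `I x` are NOT connected by `E` and
  `Kt t` without the gap `{x, S x}`. Then `S x` is left (out) and `S (I x)` is entered (in).
-/

namespace BP2

variable {L : Type*}

/-- `C` is closed under `E` and `K` -/
def Cl (E K : L → L) (C : Set L) : Prop := ∀ z ∈ C, E z ∈ C ∧ K z ∈ C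

/-- `x` and `y` are connected by `E` and `K` (for involutions this is symmetric) -/
def Conn (E K : L → L) (x y : L) : Prop := ∀ C : Set L, Cl E K C → x ∈ C → y ∈ C

/-- no circles: every nonempty closed set contains an end -/
def Acyc (E K : L → L) : Prop :=
  ∀ C : Set L, Cl E K C → C.Nonempty → ∃ x ∈ C, E x = x ∨ K x = x

/-- `Y` is an arrangement of the elements `E` -/
structure IsArr (E Y : L → L) : Prop where
  invol : Function.Involutive Y
  top : ∃! x, Y x = x
  conn : ∀ x y, Conn E Y x y

/-- the elements: an involution with exactly one fixed point, the floor -/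
structure IsEl (E : L → L) : Prop where
  invol : Function.Involutive E
  floor : ∃! x, E x = x

/-- one flip: the adjacency `{u, l}` of `Y` is replaced by `{t, l}`, `t` = the old top, `u` = the
new top. (`Z` is an arrangement, this forces `u` to be above `l`.) -/
def Fl (E Y Z : L → L) : Prop :=
  IsArr E Y ∧ IsArr E Z ∧ ∃ t u l, Y t = t ∧ Y u = l ∧ u ≠ l ∧ Z t = l ∧ Z l = t ∧ Z u = u ∧
    ∀ x, x ≠ t → x ≠ u → x ≠ l → Z x = Y x

/-- `k` flips lead from `Y` to `Z` -/
inductive Reach (E : L → L) : ℕ → (L → L) → (L → L) → Prop
  | refl (Y : L → L) : Reach E 0 Y Y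
  | step {k : ℕ} {Y Z W : L → L} : Reach E k Y Z → Fl E Z W → Reach E (k + 1) Y W

/-- the rigid adjacencies at time `t` -/
def Kt (S I : L → L) (a b : L → ℕ) (t : ℕ) (x : L) : L :=
  if t < a x then S x else if t < b x then x else I x

open Classical in
/-- `K` without the adjacency of `x` -/
noncomputable def cut (K : L → L) (x : L) (z : L) : L :=
  if z = x ∨ z = K x then z else K z

/-- a schedule, see the head of the file -/
structure Sched (E S I : L → L) (Q : ℕ) (a b : L → ℕ) (loc : Set ℕ) (P : L → Prop) : Prop where
  aS : ∀ x, a (S x) = a x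
  bI : ∀ x, b (I x) = b x
  ab : ∀ x, a x ≤ b x
  triv : ∀ x, b x = 0 → S x = I x
  triv' : ∀ x, S x = I x → a x = 0
  topS : ∀ x, S x = x → a x = 0
  topI : ∀ x, I x = x → b x = 0 ∨ Q < b x
  acyc : ∀ t ≤ Q, Acyc E (Kt S I a b t)
  far : ∀ t < Q, t ∉ loc → ∀ x y, b x = t + 1 → b y = t + 1 → x ≠ y →
    ¬ Conn E (Kt S I a b t) x y
  opened : ∀ t < Q, t ∈ loc → ∀ x, b x = t + 1 → a x = t + 1
  noCut : ∀ t < Q, t ∈ loc → ∀ x, a x = t + 1 → b x = t + 1 ∨ b (S x) = t + 1
  first : ∀ t < Q, t ∈ loc → ∀ x, b x = t + 1 → (P x ↔ ¬ P (I x))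
  body : ∀ t < Q, t ∈ loc → ∀ x, b x = t + 1 → Conn E (Kt S I a b t) x (I x)
  side : ∀ t < Q, t ∈ loc → ∀ x, b x = t + 1 → P x →
    ¬ Conn E (cut (Kt S I a b t) x) x (I x)
  one : ∀ t < Q, t ∈ loc → ∀ x y, b x = t + 1 → b y = t + 1 → P x → P y →
    Conn E (Kt S I a b t) x y → x = y

open Classical in
/-- number of the out-labels created at the local transition `t` and used at the time `j` -/
noncomputable def nOut [Fintype L] (S : L → L) (b : L → ℕ) (P : L → Prop) (t j : ℕ) : ℕ :=
  (Finset.univ.filter fun x => b x = t + 1 ∧ P x ∧ b (S x) = j).card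

open Classical in
/-- number of the in-labels created at the local transition `t` and used at the time `j` -/
noncomputable def nIn [Fintype L] (S I : L → L) (b : L → ℕ) (P : L → Prop) (t j : ℕ) : ℕ :=
  (Finset.univ.filter fun x => b x = t + 1 ∧ P x ∧ b (S (I x)) = j).card

open Classical in
/-- the numerical conditions: `d` = the allowed number of exceptions -/
structure Good [Fintype L] (S I : L → L) (n Q : ℕ) (a b : L → ℕ) (loc : Set ℕ) (P : L → Prop)
    (d : ℕ) : Prop where
  /-- few adjacencies are open at time 0 -/
  start : (Finset.univ.filter fun x => a x = 0 ∧ 0 < b x).card ≤ d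
  /-- few adjacencies are not formed at time `Q` -/
  fin : (Finset.univ.filter fun x => Q < b x).card ≤ d
  /-- one loose label per opened adjacency -/
  loose : (Finset.univ.filter fun x => a x < b x).card ≤ n + d
  /-- balance at the local transitions, in total -/
  bal : ∑ t ∈ (Finset.range Q).filter (fun t => t ∈ loc), ∑ j ∈ Finset.range (Q + 2),
    Int.natAbs ((nOut S b P t j : ℤ) - nIn S I b P t j) ≤ d
  /-- times are at most `Q + 1` -/
  le : ∀ x, b x ≤ Q + 1

/-- (S): the structure theorem -/
def StructureTheorem : Prop :=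
  ∀ m : ℕ, 0 < m → ∃ Q C : ℕ, ∀ (L : Type) [Fintype L] (E S I : L → L) (n : ℕ),
    Fintype.card L = 2 * n + 1 → IsEl E → IsArr E S → IsArr E I →
    ∃ (a b : L → ℕ) (loc : Set ℕ) (P : L → Prop) (d : ℕ),
      Sched E S I Q a b loc P ∧ Good S I n Q a b loc P d ∧ m * d ≤ n + C

/-- (M): the machine theorem: a schedule with `Q` levels and `d` exceptions gives
`flips <= (3/2 + 1/m) n + (c/2) d + C(m, Q)`, `c` an absolute constant; stated with integers. -/
def MachineTheorem : Prop :=
  ∃ c : ℕ, ∀ m Q : ℕ, 0 < m → ∃ C : ℕ, ∀ (L : Type) [Fintype L] (E S I : L → L) (n : ℕ),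
    Fintype.card L = 2 * n + 1 → IsEl E → IsArr E S → IsArr E I →
    ∀ (a b : L → ℕ) (loc : Set ℕ) (P : L → Prop) (d : ℕ),
      Sched E S I Q a b loc P → Good S I n Q a b loc P d →
      ∃ k, Reach E k S I ∧ 2 * m * k ≤ 3 * m * n + 2 * n + c * m * d + C

/-- the goal in this model -/
def Goal : Prop :=
  ∀ m : ℕ, 0 < m → ∃ C : ℕ, ∀ (L : Type) [Fintype L] (E S I : L → L) (n : ℕ),
    Fintype.card L = 2 * n + 1 → IsEl E → IsArr E S → IsArr E I →
    ∃ k, Reach E k S I ∧ 2 * m * k ≤ 3 * m * n + 2 * n + C

end BP2
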