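import Mathlib
import Pool.Agent.BP2.Interface
import Pool.Agent.Work.MP_475aca_co.Defs

set_option autoImplicit false

/-!
# MP_475aca_co: from lists to the label model

Labels: the integers `x` with `|x| <= n`; `0` is the floor, the entry `v` of a list has the upper
label `v` and the lower label `-v`.
-/

namespace BP2

/-- `p` and `q` are consecutive in the list `c` -/
def Consec (c : List ℤ) (p q : ℤ) : Prop := ∃ s r : List ℤ, c = s ++ p :: q :: r

/-- `{x, y}` is an adjacency of the list `a` -/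
def AdjL (a : List ℤ) (x y : ℤ) : Prop :=
  ∃ p q, Consec (a ++ [0]) p q ∧ ((x = -p ∧ y = q) ∨ (x = q ∧ y = -p))

open Classical in
/-- the involution of the list `a` -/
noncomputable def arrZ (a : List ℤ) (x : ℤ) : ℤ :=
  if h : ∃ y, AdjL a x y then h.choose else x

lemma AdjL.symm {a : List ℤ} {x y : ℤ} (h : AdjL a x y) : AdjL a y x := by
  obtain ⟨p, q, hc, h1 | h1⟩ := h
  · exact ⟨p, q, hc, Or.inr ⟨h1.2, h1.1⟩⟩
  · exact ⟨p, q, hc, Or.inl ⟨h1.2, h1.1⟩⟩

/-- basic facts about signed permutations -/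
structure SPF (n : ℕ) (a : List ℤ) : Prop where
  nd : (a.map Int.natAbs).Nodup
  mem : ∀ k : ℕ, k ∈ a.map Int.natAbs ↔ 1 ≤ k ∧ k ≤ n

lemma spf_of_isSP {n : ℕ} {a : List ℤ} (h : BP.IsSP n a) : SPF n a := by
  refine ⟨(h.nodup_iff).2 (List.nodup_range'), fun k => ?_⟩
  rw [h.mem_iff, List.mem_range'_1]
  omega

lemma isSP_of_perm {n : ℕ} {a b : List ℤ} (h : BP.IsSP n a)
    (hb : (b.map Int.natAbs).Perm (a.map Int.natAbs)) : BP.IsSP n b := hb.trans h

lemma pflip_perm (k : ℕ) (a : List ℤ) :
    ((BP.pflip k a).map Int.natAbs).Perm (a.map Int.natAbs) := by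
  unfold BP.pflip
  rw [List.map_append]
  conv_rhs => rw [← List.take_append_drop k a, List.map_append]
  refine List.Perm.append_right _ ?_
  rw [List.map_reverse, List.map_map]
  refine (List.reverse_perm _).trans (List.Perm.of_eq ?_)
  exact List.map_congr_left fun v _ => by simp

/-- the first component determines the position: a splitting lemma -/
lemma split_unique {c : List ℤ} (hc : (c.map Int.natAbs).Nodup) {s r s' r' : List ℤ} {p p' : ℤ}
    (h : c = s ++ p :: r) (h' : c = s' ++ p' :: r') (hp : p.natAbs = p'.natAbs) :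
    s = s' ∧ p = p' ∧ r = r' := by
  subst h
  induction s generalizing s' with
  | nil =>
    cases s' with
    | nil => simpa using h'
    | cons x s' =>
      exfalso
      simp only [List.nil_append, List.cons_append, List.cons.injEq] at h'
      obtain ⟨rfl, rfl⟩ := h'
      simp only [List.nil_append, List.map_cons, List.nodup_cons, List.map_append,
        List.mem_append, List.mem_cons] at hc
      exact hc.1 (Or.inr (Or.inl hp))
  | cons y s ih =>
    cases s' with
    | nil =>
      exfalso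
      simp only [List.nil_append, List.cons_append, List.cons.injEq] at h'
      obtain ⟨rfl, rfl⟩ := h'
      simp only [List.cons_append, List.map_cons, List.nodup_cons, List.map_append,
        List.mem_append, List.mem_cons] at hc
      exact hc.1 (Or.inr (Or.inl hp.symm))
    | cons x s' =>
      simp only [List.cons_append, List.cons.injEq] at h'
      obtain ⟨rfl, h'⟩ := h'
      have hc' : ((s ++ p :: r).map Int.natAbs).Nodup := by
        simp only [List.cons_append, List.map_cons, List.nodup_cons] at hc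
        exact hc.2
      obtain ⟨h1, h2, h3⟩ := ih hc' h'
      exact ⟨by rw [h1], h2, h3⟩

section
variable {n : ℕ} {a : List ℤ}

lemma SPF.nd0 (h : SPF n a) : ((a ++ [0]).map Int.natAbs).Nodup := by
  rw [List.map_append, List.nodup_append]
  refine ⟨h.nd, by simp, ?_⟩
  intro x hx y hy
  simp only [List.map_cons, Int.natAbs_zero, List.map_nil, List.mem_singleton] at hy
  subst hy
  have := ((h.mem x).1 hx).1
  omega

lemma SPF.mem0 (h : SPF n a) {v : ℤ} (hv : v ∈ a ++ [0]) : v.natAbs ≤ n := by
  rw [List.mem_append] at hv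
  rcases hv with hv | hv
  · exact ((h.mem _).1 (List.mem_map_of_mem hv)).2
  · simp only [List.mem_singleton] at hv
    simp [hv]

lemma SPF.exists_split (h : SPF n a) {x : ℤ} (hx : x.natAbs ≤ n) :
    ∃ p s r, a ++ [0] = s ++ p :: r ∧ p.natAbs = x.natAbs := by
  have : x.natAbs ∈ (a ++ [0]).map Int.natAbs := by
    rw [List.map_append, List.mem_append]
    rcases Nat.eq_zero_or_pos x.natAbs with h0 | h0
    · right
      simp [h0]
    · left
      exact (h.mem _).2 ⟨h0, hx⟩
  obtain ⟨p, hp, hpx⟩ := List.mem_map.1 this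
  obtain ⟨s, r, hsr⟩ := List.append_of_mem hp
  exact ⟨p, s, r, hsr, hpx⟩

lemma SPF.adj_unique (h : SPF n a) {x y z : ℤ} (h1 : AdjL a x y) (h2 : AdjL a x z) : y = z := by
  have hnd := h.nd0
  obtain ⟨p, q, ⟨s, r, hs⟩, h1⟩ := h1
  obtain ⟨p', q', ⟨s', r', hs'⟩, h2⟩ := h2
  have hsq : a ++ [0] = (s ++ [p]) ++ q :: r := by rw [hs]; simp
  have hsq' : a ++ [0] = (s' ++ [p']) ++ q' :: r' := by rw [hs']; simp
  have hp0 : p ≠ 0 := by
    rintro rfl
    have := split_unique hnd (s := s) (r := q :: r) (s' := a) (r' := []) (p := 0) (p' := 0) hs rfl rfl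
    simp at this
  have hp0' : p' ≠ 0 := by
    rintro rfl
    have := split_unique hnd (s := s') (r := q' :: r') (s' := a) (r' := []) (p := 0) (p' := 0)
      hs' rfl rfl
    simp at this
  rcases h1 with ⟨hx, rfl⟩ | ⟨hx, rfl⟩ <;> rcases h2 with ⟨hx', rfl⟩ | ⟨hx', rfl⟩
  · have := split_unique hnd hs hs' (by omega)
    simp only [List.cons.injEq] at this
    exact this.2.2.1
  · have := split_unique hnd hs hsq' (by omega)
    exfalso
    have h3 := this.2.1
    omega
  · have := split_unique hnd hsq hs' (by omega)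
    exfalso
    have h3 := this.2.1
    omega
  · have := split_unique hnd hsq hsq' (by omega)
    have h3 := List.append_inj' this.1 rfl
    simp only [List.cons.injEq, and_true] at h3
    rw [h3.2]

lemma SPF.left_ne_zero (h : SPF n a) {s r : List ℤ} {p q : ℤ}
    (hs : a ++ [0] = s ++ p :: q :: r) : p ≠ 0 := by
  rintro rfl
  have := split_unique h.nd0 (s := s) (r := q :: r) (s' := a) (r' := []) (p := 0) (p' := 0)
    hs rfl rfl
  simp at this

lemma SPF.arr_eq (h : SPF n a) {x y : ℤ} (h1 : AdjL a x y) : arrZ a x = y := by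
  unfold arrZ
  have h2 : ∃ y, AdjL a x y := ⟨y, h1⟩
  rw [dif_pos h2]
  exact h.adj_unique h2.choose_spec h1

lemma SPF.no_adj_head (h : SPF n a) (y : ℤ) : ¬ AdjL a (a.headD 0) y := by
  intro h1
  obtain ⟨r0, hr0⟩ : ∃ r0, a ++ [0] = [] ++ (a.headD 0) :: r0 := by
    cases a with
    | nil => exact ⟨[], rfl⟩
    | cons v a => exact ⟨a ++ [0], rfl⟩
  obtain ⟨p, q, ⟨s, r, hs⟩, h1 | h1⟩ := h1
  · have h2 := split_unique h.nd0 hr0 hs (by rw [h1.1]; simp)
    have h3 := h.left_ne_zero hs
    have h4 := h1.1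
    rw [h2.2.1] at h4
    omega
  · have hsq : a ++ [0] = (s ++ [p]) ++ q :: r := by rw [hs]; simp
    have h2 := split_unique h.nd0 hr0 hsq (by rw [h1.1])
    simp at h2

lemma arr_head (h : SPF n a) : arrZ a (a.headD 0) = a.headD 0 := by
  unfold arrZ
  rw [dif_neg]
  rintro ⟨y, hy⟩
  exact h.no_adj_head y hy

lemma SPF.exists_adj (h : SPF n a) {x : ℤ} (hx : x.natAbs ≤ n) (hne : x ≠ a.headD 0) :
    ∃ y, AdjL a x y := by
  obtain ⟨p, s, r, hs, hp⟩ := h.exists_split hx
  by_cases hxp : x = p
  · subst hxp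
    rcases List.eq_nil_or_concat s with rfl | ⟨s', p0, rfl⟩
    · exfalso
      cases a with
      | nil =>
        simp only [List.nil_append, List.cons.injEq] at hs
        apply hne
        simp [hs.1]
      | cons v a =>
        simp only [List.cons_append, List.nil_append, List.cons.injEq] at hs
        apply hne
        simp [hs.1]
    · refine ⟨-p0, p0, x, ⟨s', r, ?_⟩, Or.inr ⟨rfl, rfl⟩⟩
      rw [hs]
      simp
  · have hxp' : x = -p := by omega
    cases r with
    | nil =>
      exfalso
      have h1 := split_unique h.nd0 (s := s) (r := []) (s' := s) (r' := []) hs hs rfl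
      have h2 := List.append_inj' hs rfl
      simp only [List.cons.injEq, and_true] at h2
      omega
    | cons q r => exact ⟨q, p, q, ⟨s, r, hs⟩, Or.inl ⟨hxp', rfl⟩⟩

lemma SPF.adj_abs (h : SPF n a) {x y : ℤ} (h1 : AdjL a x y) : x.natAbs ≤ n ∧ y.natAbs ≤ n := by
  obtain ⟨p, q, ⟨s, r, hs⟩, h1⟩ := h1
  have hp : p.natAbs ≤ n := h.mem0 (by rw [hs]; simp)
  have hq : q.natAbs ≤ n := h.mem0 (by rw [hs]; simp)
  rcases h1 with ⟨rfl, rfl⟩ | ⟨rfl, rfl⟩
  · exact ⟨by simpa using hp, hq⟩
  · exact ⟨hq, by simpa using hp⟩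

lemma SPF.head_abs (h : SPF n a) : (a.headD 0).natAbs ≤ n := by
  apply h.mem0
  cases a with
  | nil => simp
  | cons v a => simp

lemma SPF.arr_abs (h : SPF n a) {x : ℤ} (hx : x.natAbs ≤ n) : (arrZ a x).natAbs ≤ n := by
  by_cases hne : x = a.headD 0
  · subst hne
    rw [arr_head h]
    exact h.head_abs
  · obtain ⟨y, hy⟩ := h.exists_adj hx hne
    rw [h.arr_eq hy]
    exact (h.adj_abs hy).2

lemma SPF.arr_invol (h : SPF n a) {x : ℤ} (hx : x.natAbs ≤ n) : arrZ a (arrZ a x) = x := by
  by_cases hne : x = a.headD 0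
  · subst hne
    rw [arr_head h, arr_head h]
  · obtain ⟨y, hy⟩ := h.exists_adj hx hne
    rw [h.arr_eq hy, h.arr_eq hy.symm]

lemma AdjL_ne (h : SPF n a) {x y : ℤ} (h1 : AdjL a x y) : x ≠ y := by
  have hnd := h.nd0
  obtain ⟨p, q, ⟨s, r, hs⟩, h1⟩ := h1
  have hsq : a ++ [0] = (s ++ [p]) ++ q :: r := by rw [hs]; simp
  intro he
  have h2 : p.natAbs = q.natAbs := by omega
  have h3 := split_unique hnd hs hsq h2
  have h4 := congrArg List.length h3.1
  simp at h4

lemma SPF.arr_fix (h : SPF n a) {x : ℤ} (hx : x.natAbs ≤ n) (hf : arrZ a x = x) :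
    x = a.headD 0 := by
  by_contra hne
  obtain ⟨y, hy⟩ := h.exists_adj hx hne
  rw [h.arr_eq hy] at hf
  exact AdjL_ne h hy hf.symm

end

/-! ### the flip -/

lemma consec_append {A B : List ℤ} {p q : ℤ} : Consec (A ++ B) p q ↔
    Consec A p q ∨ (∃ A' B', A = A' ++ [p] ∧ B = q :: B') ∨ Consec B p q := by
  constructor
  · rintro ⟨s, r, h⟩
    induction A generalizing s with
    | nil => exact Or.inr (Or.inr ⟨s, r, by simpa using h⟩)
    | cons x A ih =>
      cases s with
      | nil =>
        simp only [List.cons_append, List.nil_append, List.cons.injEq] at h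
        obtain ⟨rfl, h⟩ := h
        cases A with
        | nil =>
          right; left
          exact ⟨[], r, rfl, by simpa using h⟩
        | cons y A =>
          simp only [List.cons_append, List.cons.injEq] at h
          obtain ⟨rfl, h⟩ := h
          left
          exact ⟨[], A, rfl⟩
      | cons z s =>
        simp only [List.cons_append, List.cons.injEq] at h
        obtain ⟨rfl, h⟩ := h
        rcases ih s h with ⟨s', r', h'⟩ | ⟨A', B', h1, h2⟩ | h'
        · left
          exact ⟨x :: s', r', by rw [h']; rfl⟩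
        · right; left
          exact ⟨x :: A', B', by rw [h1]; rfl, h2⟩
        · right; right
          exact h'
  · rintro (⟨s, r, h⟩ | ⟨A', B', h1, h2⟩ | ⟨s, r, h⟩)
    · exact ⟨s, r ++ B, by rw [h]; simp⟩
    · exact ⟨A', B', by rw [h1, h2]; simp⟩
    · exact ⟨A ++ s, r, by rw [h]; simp⟩

/-- reverse and change signs -/
def rn (A : List ℤ) : List ℤ := (A.map fun v => -v).reverse

lemma rn_append (A B : List ℤ) : rn (A ++ B) = rn B ++ rn A := by simp [rn]

lemma consec_rn {A : List ℤ} {p q : ℤ} (h : Consec A p q) : Consec (rn A) (-q) (-p) := by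
  obtain ⟨s, r, rfl⟩ := h
  refine ⟨rn r, rn s, ?_⟩
  simp [rn]

lemma pflip_eq (k : ℕ) (a : List ℤ) : BP.pflip k a = rn (a.take k) ++ a.drop k := rfl

/-- the flip at the cut `a = u ++ p :: v`, `t :: _ = u ++ [p]` -/
lemma flip_arr {n : ℕ} {u v : List ℤ} {p t q : ℤ} (h : SPF n (u ++ [p] ++ v))
    (h' : SPF n (rn (u ++ [p]) ++ v)) (ht : (u ++ [p]).head? = some t)
    (hq : v.headD 0 = q) :
    arrZ (rn (u ++ [p]) ++ v) t = q ∧ arrZ (rn (u ++ [p]) ++ v) q = t ∧
    arrZ (rn (u ++ [p]) ++ v) (-p) = -p ∧ ∀ x : ℤ, x.natAbs ≤ n → x ≠ t → x ≠ -p → x ≠ q →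
      arrZ (rn (u ++ [p]) ++ v) x = arrZ (u ++ [p] ++ v) x := by
  obtain ⟨w, hw⟩ : ∃ w, u ++ [p] = t :: w := by
    cases hu : u ++ [p] with
    | nil => simp at hu
    | cons z w =>
      rw [hu] at ht
      simp only [List.head?_cons, Option.some.injEq] at ht
      exact ⟨w, by rw [ht]⟩
  obtain ⟨v', hv'⟩ : ∃ v', v ++ [0] = q :: v' := by
    cases v with
    | nil => exact ⟨[], by simp at hq; simp [hq]⟩
    | cons z v => exact ⟨v ++ [0], by simp at hq; simp [hq]⟩
  have h1 : AdjL (rn (u ++ [p]) ++ v) t q := by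
    refine ⟨-t, q, ?_, Or.inl ⟨by simp, rfl⟩⟩
    rw [List.append_assoc, hv']
    rw [consec_append]
    right; left
    refine ⟨rn w, v', ?_, rfl⟩
    rw [hw]
    simp [rn]
  refine ⟨h'.arr_eq h1, h'.arr_eq h1.symm, ?_, ?_⟩
  · have h2 := arr_head h'
    have h3 : (rn (u ++ [p]) ++ v).headD 0 = -p := by simp [rn]
    rw [h3] at h2
    exact h2
  · intro x hx hxt hxp hxq
    have hne : x ≠ (u ++ [p] ++ v).headD 0 := by
      rw [hw]
      simpa using hxt
    obtain ⟨y, hy⟩ := h.exists_adj hx hne
    rw [h.arr_eq hy]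
    apply h'.arr_eq
    obtain ⟨p0, q0, hc, hxy⟩ := hy
    rw [List.append_assoc, consec_append] at hc
    rcases hc with hc | ⟨A', B', hA, hB⟩ | hc
    · refine ⟨-q0, -p0, ?_, ?_⟩
      · rw [List.append_assoc, consec_append]
        left
        exact consec_rn hc
      · rcases hxy with ⟨rfl, rfl⟩ | ⟨rfl, rfl⟩
        · right; exact ⟨rfl, by simp⟩
        · left; exact ⟨by simp, rfl⟩
    · exfalso
      have hA' := List.append_inj' hA rfl
      simp only [List.cons.injEq, and_true] at hA'
      rw [hv'] at hB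
      simp only [List.cons.injEq] at hB
      rcases hxy with ⟨rfl, _⟩ | ⟨rfl, _⟩
      · exact hxp (by rw [hA'.2])
      · exact hxq hB.1.symm
    · refine ⟨p0, q0, ?_, hxy⟩
      rw [List.append_assoc, consec_append]
      right; right
      exact hc

/-! ### the label type -/

/-- labels -/
abbrev LZ (n : ℕ) : Type := {x : ℤ // x ∈ Finset.Icc (-(n : ℤ)) n}

lemma memLZ {n : ℕ} {x : ℤ} : x ∈ Finset.Icc (-(n : ℤ)) n ↔ x.natAbs ≤ n := by
  rw [Finset.mem_Icc]
  omega

lemma card_LZ (n : ℕ) : Fintype.card (LZ n) = 2 * n + 1 := by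
  rw [Fintype.card_coe, Int.card_Icc]
  omega

/-- the elements -/
def EZ (n : ℕ) (x : LZ n) : LZ n := ⟨-x.1, by
  have := x.2
  rw [memLZ] at this ⊢
  simpa using this⟩

open Classical in
/-- the arrangement of a list -/
noncomputable def AZ (n : ℕ) (a : List ℤ) (x : LZ n) : LZ n :=
  if h : arrZ a x.1 ∈ Finset.Icc (-(n : ℤ)) n then ⟨arrZ a x.1, h⟩ else x

lemma isEl_EZ (n : ℕ) : IsEl (EZ n) where
  invol x := by
    apply Subtype.ext
    simp [EZ]
  floor := by
    refine ⟨⟨0, by rw [memLZ]; simp⟩, ?_, ?_⟩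
    · simp [EZ]
    · intro y hy
      have := congrArg Subtype.val hy
      simp only [EZ] at this
      apply Subtype.ext
      show y.1 = 0
      omega

section
variable {n : ℕ} {a : List ℤ}

lemma AZ_val (h : SPF n a) (x : LZ n) : (AZ n a x).1 = arrZ a x.1 := by
  have h1 : arrZ a x.1 ∈ Finset.Icc (-(n : ℤ)) n := by
    rw [memLZ]
    exact h.arr_abs (memLZ.1 x.2)
  unfold AZ
  rw [dif_pos h1]

lemma chain_all (c : List ℤ) (P : ℤ → Prop) (h : ∀ p q, Consec c p q → (P p ↔ P q)) :
    ∀ v ∈ c, ∀ w ∈ c, (P v ↔ P w) := by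
  induction c with
  | nil => simp
  | cons x c ih =>
    have ih' := ih (fun p q ⟨s, r, hs⟩ => h p q ⟨x :: s, r, by rw [hs]; rfl⟩)
    cases c with
    | nil =>
      intro v hv w hw
      simp only [List.mem_singleton] at hv hw
      rw [hv, hw]
    | cons y c =>
      have hxy : P x ↔ P y := h x y ⟨[], c, rfl⟩
      have key : ∀ v ∈ x :: y :: c, (P v ↔ P y) := by
        intro v hv
        rw [List.mem_cons] at hv
        rcases hv with rfl | hv
        · exact hxy
        · exact ih' v hv y (by simp)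
      intro v hv w hw
      rw [key v hv, key w hw]

lemma isArr_AZ (h : SPF n a) : IsArr (EZ n) (AZ n a) where
  invol x := by
    apply Subtype.ext
    rw [AZ_val h, AZ_val h]
    exact h.arr_invol (memLZ.1 x.2)
  top := by
    refine ⟨⟨a.headD 0, memLZ.2 h.head_abs⟩, ?_, ?_⟩
    · apply Subtype.ext
      rw [AZ_val h]
      exact arr_head h
    · intro y hy
      apply Subtype.ext
      have := congrArg Subtype.val hy
      rw [AZ_val h] at this
      exact h.arr_fix (memLZ.1 y.2) this
  conn x y := by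
    intro C hC hx
    have hE : ∀ z : LZ n, z ∈ C ↔ EZ n z ∈ C := by
      intro z
      constructor
      · exact fun hz => (hC z hz).1
      · intro hz
        have := (hC _ hz).1
        rwa [(isEl_EZ n).invol z] at this
    have hchain := chain_all (a ++ [0]) (fun v => ∃ hv : v ∈ Finset.Icc (-(n : ℤ)) n,
      (⟨v, hv⟩ : LZ n) ∈ C) (by
        rintro p q ⟨s, r, hs⟩
        have hadj : AdjL a (-p) q := ⟨p, q, ⟨s, r, hs⟩, Or.inl ⟨rfl, rfl⟩⟩
        have hp := (h.adj_abs hadj).1
        have hq := (h.adj_abs hadj).2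
        constructor
        · rintro ⟨h1, h2⟩
          refine ⟨memLZ.2 hq, ?_⟩
          have h3 := (hC _ ((hE _).1 h2)).2
          have h4 : AZ n a (EZ n ⟨p, h1⟩) = ⟨q, memLZ.2 hq⟩ := by
            apply Subtype.ext
            rw [AZ_val h]
            exact h.arr_eq hadj
          rwa [h4] at h3
        · rintro ⟨h1, h2⟩
          have h3 := (hC _ h2).2
          have h4 : AZ n a ⟨q, h1⟩ = ⟨-p, memLZ.2 hp⟩ := by
            apply Subtype.ext
            rw [AZ_val h]
            exact h.arr_eq hadj.symm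
          rw [h4] at h3
          refine ⟨memLZ.2 (by simpa using hp), ?_⟩
          rw [hE]
          exact h3)
    have hpm : ∀ (z : LZ n) (p : ℤ), p.natAbs = z.1.natAbs →
        (z ∈ C ↔ ∃ hv : p ∈ Finset.Icc (-(n : ℤ)) n, (⟨p, hv⟩ : LZ n) ∈ C) := by
      intro z p hp
      have hv : p ∈ Finset.Icc (-(n : ℤ)) n := memLZ.2 (by rw [hp]; exact memLZ.1 z.2)
      by_cases hzp : z.1 = p
      · subst hzp
        exact ⟨fun hz => ⟨hv, hz⟩, fun ⟨_, hz⟩ => hz⟩
      · have h5 : EZ n z = ⟨p, hv⟩ := by
          apply Subtype.ext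
          show -z.1 = p
          omega
        rw [hE z, h5]
        exact ⟨fun hz => ⟨hv, hz⟩, fun ⟨_, hz⟩ => hz⟩
    obtain ⟨p, s, r, hs, hp⟩ := h.exists_split (memLZ.1 x.2)
    obtain ⟨q, s', r', hs', hq⟩ := h.exists_split (memLZ.1 y.2)
    rw [hpm y q hq, ← hchain p (by rw [hs]; simp) q (by rw [hs']; simp), ← hpm x p hp]
    exact hx

/-- a flip in the label model is a flip of the list -/
lemma fl_list (h : BP.IsSP n a) {Z : LZ n → LZ n} (hF : Fl (EZ n) (AZ n a) Z) :
    ∃ k, 1 ≤ k ∧ k ≤ n ∧ Z = AZ n (BP.pflip k a) := by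
  have hs := spf_of_isSP h
  obtain ⟨_, hZ, t, u, l, ht, hu, hul, hZt, hZl, hZu, hZx⟩ := hF
  have htv : t.1 = a.headD 0 := by
    have := congrArg Subtype.val ht
    rw [AZ_val hs] at this
    exact hs.arr_fix (memLZ.1 t.2) this
  have huv : arrZ a u.1 = l.1 := by
    rw [← AZ_val hs, hu]
  have hadj : AdjL a u.1 l.1 := by
    have hne : u.1 ≠ a.headD 0 := by
      intro he
      rw [he, arr_head hs, ← he] at huv
      exact hul (Subtype.ext huv)
    obtain ⟨y, hy⟩ := hs.exists_adj (memLZ.1 u.2) hne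
    rw [hs.arr_eq hy] at huv
    rwa [← huv]
  obtain ⟨p, q, ⟨s, r, hsr⟩, hpq⟩ := hadj
  obtain ⟨v, z, hvz⟩ : ∃ v z, q :: r = v ++ [z] := by
    rcases List.eq_nil_or_concat (q :: r) with h1 | ⟨v, z, h1⟩
    · simp at h1
    · exact ⟨v, z, by rw [h1, List.concat_eq_append]⟩
  have hsv : a = s ++ [p] ++ v := by
    have h1 : a ++ [0] = (s ++ [p] ++ v) ++ [z] := by
      rw [hsr, hvz]
      simp
    exact (List.append_inj' h1 rfl).1
  have hz0 : z = 0 := by
    have h1 : a ++ [0] = (s ++ [p] ++ v) ++ [z] := by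
      rw [hsr, hvz]
      simp
    have h2 := (List.append_inj' h1 rfl).2
    simpa using h2.symm
  have hlen : a.length = n := by
    have := h.length_eq
    simpa using this
  rcases hpq with ⟨hup, hlq⟩ | ⟨huq, hlp⟩
  · refine ⟨s.length + 1, by omega, ?_, ?_⟩
    · rw [← hlen, hsv]
      simp
    · have hfl : BP.pflip (s.length + 1) a = rn (s ++ [p]) ++ v := by
        rw [pflip_eq]
        have h1 : a.take (s.length + 1) = s ++ [p] := by
          rw [hsv]
          rw [show s.length + 1 = (s ++ [p]).length by simp]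
          exact List.take_left
        have h2 : a.drop (s.length + 1) = v := by
          rw [hsv]
          rw [show s.length + 1 = (s ++ [p]).length by simp]
          exact List.drop_left
        rw [h1, h2]
      have hs' : SPF n (rn (s ++ [p]) ++ v) := by
        rw [← hfl]
        exact spf_of_isSP (isSP_of_perm h (pflip_perm _ _))
      have hs2 : SPF n (s ++ [p] ++ v) := by rw [← hsv]; exact hs
      have hth : (s ++ [p]).head? = some t.1 := by
        rw [htv, hsv]
        cases s with
        | nil => simp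
        | cons x s => simp
      have hvq : v.headD 0 = q := by
        cases v with
        | nil =>
          simp only [List.nil_append, List.cons.injEq] at hvz
          simp only [List.headD_nil]
          rw [hvz.1, hz0]
        | cons x v =>
          simp only [List.cons_append, List.cons.injEq] at hvz
          simp [hvz.1]
      obtain ⟨f1, f2, f3, f4⟩ := flip_arr hs2 hs' hth hvq
      rw [hfl]
      funext x
      apply Subtype.ext
      rw [AZ_val hs']
      by_cases hxt : x = t
      · subst hxt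
        rw [hZt, f1, hlq]
      · by_cases hxl : x = l
        · subst hxl
          rw [hZl, hlq, f2]
        · by_cases hxu : x = u
          · subst hxu
            rw [hZu, hup, f3]
          · rw [hZx x hxt hxu hxl, AZ_val hs, hsv]
            refine (f4 x.1 (memLZ.1 x.2) ?_ ?_ ?_).symm
            · exact fun he => hxt (Subtype.ext he)
            · exact fun he => hxu (Subtype.ext (by rw [he, hup]))
            · exact fun he => hxl (Subtype.ext (by rw [he, hlq]))
  · exfalso
    have hnd := hs.nd0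
    rw [hsr] at hnd
    have hnd2 : ∀ x ∈ s ++ [p], ∀ y ∈ q :: r, x.natAbs ≠ y.natAbs := by
      intro x hx y hy
      have h1 : s ++ p :: q :: r = (s ++ [p]) ++ (q :: r) := by simp
      rw [h1, List.map_append, List.nodup_append] at hnd
      exact hnd.2.2 _ (List.mem_map_of_mem hx) _ (List.mem_map_of_mem hy)
    have hcl : Cl (EZ n) Z {x : LZ n | x.1.natAbs ∈ (s ++ [p]).map Int.natAbs} := by
      intro x hx
      simp only [Set.mem_ofPred_eq] at hx ⊢
      refine ⟨by simpa [EZ] using hx, ?_⟩
      by_cases hxt : x = t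
      · subst hxt
        rw [hZt, hlp]
        simp
      · by_cases hxl : x = l
        · subst hxl
          rw [hZl, htv, hsv]
          apply List.mem_map_of_mem
          cases s with
          | nil => simp
          | cons x s => simp
        · by_cases hxu : x = u
          · exfalso
            subst hxu
            obtain ⟨y, hy, hy2⟩ := List.mem_map.1 hx
            exact hnd2 y hy q (by simp) (by rw [hy2, huq])
          · rw [hZx x hxt hxu hxl, AZ_val hs]
            have hne : x.1 ≠ a.headD 0 := by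
              rw [← htv]
              exact fun he => hxt (Subtype.ext he)
            obtain ⟨y, hy⟩ := hs.exists_adj (memLZ.1 x.2) hne
            rw [hs.arr_eq hy]
            obtain ⟨p1, q1, hc, hxy⟩ := hy
            have h1 : a ++ [0] = (s ++ [p]) ++ (q :: r) := by rw [hsr]; simp
            rw [h1, consec_append] at hc
            rcases hc with ⟨s1, r1, hc⟩ | ⟨A', B', hA, hB⟩ | ⟨s1, r1, hc⟩
            · rw [hc]
              rcases hxy with ⟨_, rfl⟩ | ⟨_, rfl⟩ <;> simp
            · exfalso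
              have hA' := List.append_inj' hA rfl
              simp only [List.cons.injEq, and_true] at hA' hB
              rcases hxy with ⟨hx1, _⟩ | ⟨hx1, _⟩
              · exact hxl (Subtype.ext (by rw [hx1, hlp, hA'.2]))
              · exact hxu (Subtype.ext (by rw [hx1, huq, hB.1]))
            · exfalso
              obtain ⟨w, hw, hw2⟩ := List.mem_map.1 hx
              rcases hxy with ⟨hx1, _⟩ | ⟨hx1, _⟩
              · exact hnd2 w hw p1 (by rw [hc]; simp) (by rw [hw2, hx1]; simp)
              · exact hnd2 w hw q1 (by rw [hc]; simp) (by rw [hw2, hx1])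
    have h1 := hZ.conn t u _ hcl (by
      simp only [Set.mem_ofPred_eq]
      rw [htv, hsv]
      apply List.mem_map_of_mem
      cases s with
      | nil => simp
      | cons x s => simp)
    simp only [Set.mem_ofPred_eq] at h1
    obtain ⟨w, hw, hw2⟩ := List.mem_map.1 h1
    exact hnd2 w hw q (by simp) (by rw [hw2, huq])

lemma reach_list (h : BP.IsSP n a) {k : ℕ} {Y Z : LZ n → LZ n} (hY : Y = AZ n a)
    (hF : Reach (EZ n) k Y Z) :
    ∃ ks : List ℕ, ks.length = k ∧ (∀ j ∈ ks, 1 ≤ j ∧ j ≤ n) ∧ BP.IsSP n (BP.pflips ks a) ∧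
      Z = AZ n (BP.pflips ks a) := by
  induction hF with
  | refl => exact ⟨[], rfl, by simp, h, hY⟩
  | step _ hf ih =>
    obtain ⟨ks, h1, h2, h3, h4⟩ := ih hY
    rw [h4] at hf
    obtain ⟨j, hj1, hj2, hj3⟩ := fl_list h3 hf
    refine ⟨ks ++ [j], by simp [h1], ?_, ?_, ?_⟩
    · intro i hi
      rw [List.mem_append, List.mem_singleton] at hi
      rcases hi with hi | rfl
      · exact h2 i hi
      · exact ⟨hj1, hj2⟩
    · have : BP.pflips (ks ++ [j]) a = BP.pflip j (BP.pflips ks a) := by
        simp [BP.pflips]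
      rw [this]
      exact isSP_of_perm h3 (pflip_perm _ _)
    · have : BP.pflips (ks ++ [j]) a = BP.pflip j (BP.pflips ks a) := by
        simp [BP.pflips]
      rw [this]
      exact hj3

lemma AZ_inj {b d : List ℤ} (hb : SPF n b) (hd : SPF n d) (he : AZ n b = AZ n d) : b = d := by
  have hval : ∀ x : ℤ, x.natAbs ≤ n → arrZ b x = arrZ d x := by
    intro x hx
    have h1 := congrArg Subtype.val (congrFun he ⟨x, memLZ.2 hx⟩)
    rwa [AZ_val hb, AZ_val hd] at h1
  have hhead : b.headD 0 = d.headD 0 := by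
    apply hd.arr_fix hb.head_abs
    rw [← hval _ hb.head_abs]
    exact arr_head hb
  have key : ∀ (r r' s : List ℤ) (p : ℤ), b ++ [0] = s ++ p :: r → d ++ [0] = s ++ p :: r' →
      r = r' := by
    intro r
    induction r with
    | nil =>
      intro r' s p h1 h2
      cases r' with
      | nil => rfl
      | cons q' r' =>
        exfalso
        have h3 := hd.left_ne_zero h2
        have h4 := (List.append_inj' h1 rfl).2
        simp only [List.cons.injEq, and_true] at h4
        exact h3 h4.symm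
    | cons q r ih =>
      intro r' s p h1 h2
      have hp0 := hb.left_ne_zero h1
      have hadj : AdjL b (-p) q := ⟨p, q, ⟨s, r, h1⟩, Or.inl ⟨rfl, rfl⟩⟩
      cases r' with
      | nil =>
        exfalso
        have h4 := (List.append_inj' h2 rfl).2
        simp only [List.cons.injEq, and_true] at h4
        exact hp0 h4.symm
      | cons q' r' =>
        have hadj' : AdjL d (-p) q' := ⟨p, q', ⟨s, r', h2⟩, Or.inl ⟨rfl, rfl⟩⟩
        have h5 : q = q' := by
          rw [← hb.arr_eq hadj, ← hd.arr_eq hadj']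
          exact hval _ (hb.adj_abs hadj).1
        subst h5
        rw [ih r' (s ++ [p]) q (by rw [h1]; simp) (by rw [h2]; simp)]
  obtain ⟨r0, hr0⟩ : ∃ r0, b ++ [0] = [] ++ (b.headD 0) :: r0 := by
    cases b with
    | nil => exact ⟨[], rfl⟩
    | cons v b => exact ⟨b ++ [0], rfl⟩
  obtain ⟨r1, hr1⟩ : ∃ r1, d ++ [0] = [] ++ (d.headD 0) :: r1 := by
    cases d with
    | nil => exact ⟨[], rfl⟩
    | cons v d => exact ⟨d ++ [0], rfl⟩
  have h1 := key r0 r1 [] (b.headD 0) hr0 (by rw [hhead]; exact hr1)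
  have h2 : b ++ [0] = d ++ [0] := by
    rw [hr0, hr1, h1, hhead]
  exact (List.append_inj' h2 rfl).1

end

lemma flatMap_cast (w : List ℕ) :
    List.map Int.natAbs (List.flatMap (fun a : ℕ => [(a : ℤ)]) w) = w := by
  induction w with
  | nil => rfl
  | cons x w ih =>
    rw [List.flatMap_cons, List.map_append, ih]
    simp

lemma isSP_ident (n : ℕ) : BP.IsSP n (BP.ident n) := by
  unfold BP.IsSP BP.ident
  refine List.Perm.of_eq ?_
  simp only [List.map_id', List.pure_def, List.bind_eq_flatMap]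
  exact flatMap_cast _

/-- the goal in the label model implies the bound for lists -/
theorem goal_lists (hG : Goal) (m : ℕ) (hm : 0 < m) : ∃ C : ℕ, ∀ (n : ℕ) (a : List ℤ),
    BP.IsSP n a → ∃ ks : List ℕ, (∀ k ∈ ks, 1 ≤ k ∧ k ≤ n) ∧
      BP.pflips ks a = BP.ident n ∧ 2 * m * ks.length ≤ 3 * m * n + 2 * n + C := by
  obtain ⟨C, hC⟩ := hG m hm
  refine ⟨C, fun n a ha => ?_⟩
  have hs := spf_of_isSP ha
  have hi := spf_of_isSP (isSP_ident n)
  obtain ⟨k, hk, hk2⟩ := hC (LZ n) (EZ n) (AZ n a) (AZ n (BP.ident n)) n (card_LZ n) (isEl_EZ n)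
    (isArr_AZ hs) (isArr_AZ hi)
  obtain ⟨ks, h1, h2, h3, h4⟩ := reach_list ha rfl hk
  refine ⟨ks, h2, ?_, by rw [h1]; exact hk2⟩
  exact (AZ_inj (spf_of_isSP h3) hi h4.symm)

end BP2
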