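import Mathlib
import Pool.Agent.BP2.Interface
import Pool.Agent.BP2.Link

set_option autoImplicit false

/-! # MP_475aca_co: assembly of the structure theorem and the machine theorem -/

namespace BP2

theorem goal_of_parts (hS : StructureTheorem) (hM : MachineTheorem) : Goal := by
  obtain ⟨c, hc⟩ := hM
  intro m hm
  obtain ⟨Q, C1, hS⟩ := hS (c * m + 1) (by omega)
  obtain ⟨C2, hc⟩ := hc (2 * m) Q (by omega)
  refine ⟨C1 + C2, ?_⟩
  intro L _ E S I n hn hE hSa hIa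
  obtain ⟨a, b, loc, P, d, h1, h2, h3⟩ := hS L E S I n hn hE hSa hIa
  obtain ⟨k, hk, hk2⟩ := hc L E S I n hn hE hSa hIa a b loc P d h1 h2
  refine ⟨k, hk, ?_⟩
  have h4 : c * (2 * m) * d ≤ 2 * ((c * m + 1) * d) := by
    have : c * (2 * m) * d = 2 * ((c * m) * d) := by ring
    rw [this]
    exact Nat.mul_le_mul_left _ (Nat.mul_le_mul_right _ (Nat.le_succ _))
  have h5 : 2 * (2 * m) * k = 2 * (2 * m * k) := by ring
  have h6 : 3 * (2 * m) * n = 2 * (3 * m * n) := by ring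
  rw [h5, h6] at hk2
  omega

/-- the bound for lists, with real numbers -/
theorem bound_of_goal (hG : Goal) (ε : ℝ) (hε : 0 < ε) : ∃ C : ℝ, ∀ (n : ℕ) (a : List ℤ),
    BP.IsSP n a → ∃ ks : List ℕ, (∀ k ∈ ks, 1 ≤ k ∧ k ≤ n) ∧
      BP.pflips ks a = BP.ident n ∧ (ks.length : ℝ) ≤ (3 / 2 + ε) * n + C := by
  obtain ⟨m, hm⟩ := exists_nat_gt (1 / ε)
  have hm0 : (0 : ℝ) < m := lt_trans (by positivity) hm
  have hm1 : 0 < m := by exact_mod_cast hm0
  obtain ⟨C, hC⟩ := goal_lists hG m hm1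
  refine ⟨C, fun n a ha => ?_⟩
  obtain ⟨ks, h1, h2, h3⟩ := hC n a ha
  refine ⟨ks, h1, h2, ?_⟩
  have h4 : (2 * m * ks.length : ℝ) ≤ 3 * m * n + 2 * n + C := by exact_mod_cast h3
  have h5 : (1 : ℝ) ≤ ε * m := by
    rw [div_lt_iff₀ hε] at hm
    linarith
  have h6 : (n : ℝ) ≤ ε * m * n := by
    have : (0 : ℝ) ≤ n := Nat.cast_nonneg n
    nlinarith
  have h7 : (C : ℝ) ≤ 2 * m * C := by
    have h8 : (0 : ℝ) ≤ C := Nat.cast_nonneg C
    have h9 : (1 : ℝ) ≤ m := by exact_mod_cast hm1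
    nlinarith
  have h8 : 2 * m * (ks.length : ℝ) ≤ 2 * m * ((3 / 2 + ε) * n + C) := by nlinarith
  exact le_of_mul_le_mul_left h8 (by positivity)

end BP2
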