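import Pool.Agent.Work.MP_475aca_co.Defs

set_option autoImplicit false

/-! # MP_475aca_co: the burnt pancake number -/

namespace BP

/-- `f(a)` for a signed permutation `a` of `[n]`: the least number of flips, each of a length
between `1` and `n`, which turn `a` into `(1, 2, …, n)` -/
noncomputable def burntDist (n : ℕ) (a : List ℤ) : ℕ :=
  sInf {k | ∃ ks : List ℕ, ks.length = k ∧ (∀ j ∈ ks, 1 ≤ j ∧ j ≤ n) ∧ pflips ks a = ident n}

/-- `g(n)`: the maximum of `f(a)` over all signed permutations `a` of `[n]` -/
noncomputable def burntNumber (n : ℕ) : ℕ :=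
  sSup {k | ∃ a : List ℤ, IsSP n a ∧ burntDist n a = k}

end BP
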