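import Mathlib
import Pool.Agent.Work.MP_475aca_co.ModelB

set_option autoImplicit false

/-!
# The lower bound for the burnt pancake number (Cohen, Blum 1995, up to 1/2)

`-I_n = (-1, ..., -n)` needs at least `(3 n - 1) / 2` flips. Potential of the list `b = a ++ [n+1]`:
`2 (n - #G) + #{i : i, i + 1 in A} + [idx in A]`, where `G` = the good adjacencies `(i, i+1)`,
`(-(i+1), -i)`; `A` = the wrong adjacencies `(-i, -(i+1))`, `(i+1, i)`; `idx` = the good adjacency
which the top element would make next. Every flip lowers it by at most `2`.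
-/

namespace BP2.Low

/-- `x`, `y` are consecutive entries of `b` -/
def Cons (b : List ℤ) (x y : ℤ) : Prop := ∃ p q, b = p ++ x :: y :: q

/-- good adjacency -/
def GA (b : List ℤ) (i : ℤ) : Prop := Cons b i (i + 1) ∨ Cons b (-(i + 1)) (-i)

/-- wrong adjacency -/
def WA (b : List ℤ) (i : ℤ) : Prop := Cons b (-i) (-(i + 1)) ∨ Cons b (i + 1) i

/-- flip of the prefix `p` -/
def rn (p : List ℤ) : List ℤ := (p.map fun v => -v).reverse

theorem cons_append {p q : List ℤ} {x y : ℤ} : Cons (p ++ q) x y ↔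
    Cons p x y ∨ Cons q x y ∨ (∃ p' q', p = p' ++ [x] ∧ q = y :: q') := by
  constructor
  · rintro ⟨r, s, h⟩
    rw [List.append_eq_append_iff] at h
    rcases h with ⟨a', h1, h2⟩ | ⟨c', h1, h2⟩
    · -- r = p ++ a'
      exact Or.inr (Or.inl ⟨a', s, h2⟩)
    · -- p = r ++ c', x :: y :: s = c' ++ q
      match c', h2 with
      | [], h2 => exact Or.inr (Or.inl ⟨[], s, by simpa using h2.symm⟩)
      | [z], h2 =>
        simp only [List.cons_append, List.nil_append, List.cons.injEq] at h2
        exact Or.inr (Or.inr ⟨r, s, by rw [h1, h2.1], h2.2.symm⟩)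
      | z :: w :: c'', h2 =>
        simp only [List.cons_append, List.cons.injEq] at h2
        exact Or.inl ⟨r, c'', by rw [h1, h2.1, h2.2.1]⟩
  · rintro (⟨r, s, h⟩ | ⟨r, s, h⟩ | ⟨p', q', h1, h2⟩)
    · exact ⟨r, s ++ q, by simp [h]⟩
    · exact ⟨p ++ r, s, by simp [h]⟩
    · exact ⟨p', q', by simp [h1, h2]⟩

theorem rn_rn (p : List ℤ) : rn (rn p) = p := by
  simp [rn, List.map_reverse]

theorem cons_rn {p : List ℤ} {x y : ℤ} : Cons (rn p) x y ↔ Cons p (-y) (-x) := by
  have key : ∀ (p : List ℤ) (x y : ℤ), Cons p x y → Cons (rn p) (-y) (-x) := by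
    rintro p x y ⟨r, s, rfl⟩
    exact ⟨rn s, rn r, by simp [rn]⟩
  constructor
  · intro h
    have := key _ _ _ h
    rwa [rn_rn] at this
  · intro h
    have := key _ _ _ h
    simpa using this

theorem GA_rn {p : List ℤ} {i : ℤ} : GA (rn p) i ↔ GA p i := by
  unfold GA
  rw [cons_rn, cons_rn]
  simp only [neg_neg]
  exact or_comm

theorem WA_rn {p : List ℤ} {i : ℤ} : WA (rn p) i ↔ WA p i := by
  unfold WA
  rw [cons_rn, cons_rn]
  simp only [neg_neg]
  exact or_comm

/-- the junction `(u, l)` is the good adjacency `i` -/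
def GJ (u l i : ℤ) : Prop := (u = i ∧ l = i + 1) ∨ (u = -(i + 1) ∧ l = -i)

/-- the junction `(u, l)` is the wrong adjacency `i` -/
def WJ (u l i : ℤ) : Prop := (u = -i ∧ l = -(i + 1)) ∨ (u = i + 1 ∧ l = i)

theorem junction {p q : List ℤ} {u l x y : ℤ} :
    (∃ p' q', p ++ [u] = p' ++ [x] ∧ l :: q = y :: q') ↔ u = x ∧ l = y := by
  constructor
  · rintro ⟨p', q', h1, h2⟩
    have := List.append_inj' h1 rfl
    simp only [List.cons.injEq, and_true] at this
    exact ⟨this.2, (List.cons.inj h2).1⟩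
  · rintro ⟨rfl, rfl⟩
    exact ⟨p, q, rfl, rfl⟩

theorem cons_join {p q : List ℤ} {u l x y : ℤ} : Cons ((p ++ [u]) ++ (l :: q)) x y ↔
    Cons (p ++ [u]) x y ∨ Cons (l :: q) x y ∨ (u = x ∧ l = y) := by
  rw [cons_append (p := p ++ [u]) (q := l :: q), junction]

theorem GA_append {p q : List ℤ} {u l i : ℤ} : GA ((p ++ [u]) ++ (l :: q)) i ↔
    GA (p ++ [u]) i ∨ GA (l :: q) i ∨ GJ u l i := by
  unfold GA GJ
  rw [cons_join, cons_join]
  tauto

theorem WA_append {p q : List ℤ} {u l i : ℤ} : WA ((p ++ [u]) ++ (l :: q)) i ↔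
    WA (p ++ [u]) i ∨ WA (l :: q) i ∨ WJ u l i := by
  unfold WA WJ
  rw [cons_join, cons_join]
  tauto

/-- no entry together with its negative -/
def NoNeg (b : List ℤ) : Prop := ∀ x ∈ b, -x ∉ b

theorem Cons.mem_left {b : List ℤ} {x y : ℤ} (h : Cons b x y) : x ∈ b := by
  obtain ⟨p, q, rfl⟩ := h
  simp

theorem Cons.mem_right {b : List ℤ} {x y : ℤ} (h : Cons b x y) : y ∈ b := by
  obtain ⟨p, q, rfl⟩ := h
  simp

/-- the good adjacency which the top element makes next -/
def idx (v : ℤ) : ℤ := if 0 < v then v - 1 else -v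

open Classical in
/-- the wrong adjacencies -/
noncomputable def WS (n : ℕ) (b : List ℤ) : Finset ℤ :=
  (Finset.Icc (1 : ℤ) n).filter fun i => WA b i

open Classical in
/-- the good adjacencies -/
noncomputable def GS (n : ℕ) (b : List ℤ) : Finset ℤ :=
  (Finset.Icc (1 : ℤ) n).filter fun i => GA b i

/-- the number of the neighbours in `A` -/
def prs (A : Finset ℤ) : ℕ := (A.filter fun i => i + 1 ∈ A).card

/-- the potential -/
noncomputable def pot (n : ℕ) (b : List ℤ) (v : ℤ) : ℤ :=
  2 * (n - (GS n b).card) + prs (WS n b) + if idx v ∈ WS n b then 1 else 0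

theorem prs_mono {A B : Finset ℤ} (h : A ⊆ B) : prs A ≤ prs B := by
  apply Finset.card_le_card
  intro i hi
  rw [Finset.mem_filter] at hi ⊢
  exact ⟨h hi.1, h hi.2⟩

/-- removing `k` from `A` -/
theorem prs_erase (A : Finset ℤ) (k : ℤ) :
    prs A ≤ prs (A.erase k) + (if k - 1 ∈ A then 1 else 0) + (if k + 1 ∈ A then 1 else 0) := by
  have h1 : (A.filter fun i => i + 1 ∈ A) ⊆
      ((A.erase k).filter fun i => i + 1 ∈ A.erase k) ∪
        (({k - 1} : Finset ℤ).filter fun i => i ∈ A) ∪ (({k} : Finset ℤ).filter fun i => i + 1 ∈ A) := by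
    intro i hi
    rw [Finset.mem_filter] at hi
    simp only [Finset.mem_union, Finset.mem_filter, Finset.mem_erase, Finset.mem_singleton]
    by_cases h1 : i = k
    · right
      exact ⟨h1, hi.2⟩
    · by_cases h2 : i + 1 = k
      · left; right
        exact ⟨by omega, hi.1⟩
      · left; left
        exact ⟨⟨h1, hi.1⟩, h2, hi.2⟩
  have h2 := Finset.card_le_card h1
  have h3 : (({k - 1} : Finset ℤ).filter fun i => i ∈ A).card = if k - 1 ∈ A then 1 else 0 := by
    rw [Finset.filter_singleton]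
    split_ifs <;> simp
  have h4 : (({k} : Finset ℤ).filter fun i => i + 1 ∈ A).card = if k + 1 ∈ A then 1 else 0 := by
    rw [Finset.filter_singleton]
    split_ifs <;> simp
  unfold prs
  calc _ ≤ _ := h2
    _ ≤ _ := Finset.card_union_le _ _
    _ ≤ _ := Nat.add_le_add_right (Finset.card_union_le _ _) _
    _ = _ := by rw [h3, h4]

theorem idx_of_GJ {t l i : ℤ} (hi : 1 ≤ i) (h : GJ (-t) l i) : idx t = i := by
  unfold idx
  rcases h with ⟨h, -⟩ | ⟨h, -⟩
  · rw [if_neg (by omega)]
    omega
  · rw [if_pos (by omega)]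
    omega

theorem lock {b : List ℤ} {t l i : ℤ} (hN : NoNeg b) (ht : t ∈ b) (hl : l ∈ b)
    (h : GJ (-t) l i) : ¬ WA b i := by
  rintro (hw | hw)
  · rcases h with ⟨h1, h2⟩ | ⟨h1, h2⟩
    · refine hN _ hl ?_
      rw [h2]
      exact hw.mem_right
    · refine hN _ ht ?_
      rw [show -t = -(i + 1) by omega]
      exact hw.mem_right
  · rcases h with ⟨h1, h2⟩ | ⟨h1, h2⟩
    · refine hN _ ht ?_
      rw [h1]
      exact hw.mem_right
    · refine hN _ hw.mem_right ?_
      rw [← h2]
      exact hl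

theorem pot_flip (n : ℕ) {P P₁ P₂ q : List ℤ} {t u l : ℤ} (h1 : P = t :: P₂)
    (h2 : P = P₁ ++ [u]) (hN : NoNeg (P ++ l :: q)) :
    pot n (P ++ l :: q) t ≤ pot n (rn P ++ l :: q) (-u) + 2 := by
  classical
  set b := P ++ l :: q with hb
  set b' := rn P ++ l :: q with hb'
  have ht : t ∈ b := by rw [hb, h1]; simp
  have hl : l ∈ b := by rw [hb]; simp
  have hrn : rn P = rn P₂ ++ [-t] := by rw [h1]; simp [rn]
  have hGb : ∀ i, GA b i ↔ GA P i ∨ GA (l :: q) i ∨ GJ u l i := by
    intro i
    rw [hb, h2, GA_append]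
  have hWb : ∀ i, WA b i ↔ WA P i ∨ WA (l :: q) i ∨ WJ u l i := by
    intro i
    rw [hb, h2, WA_append]
  have hGb' : ∀ i, GA b' i ↔ GA P i ∨ GA (l :: q) i ∨ GJ (-t) l i := by
    intro i
    rw [hb', hrn, GA_append, ← hrn, GA_rn]
  have hWb' : ∀ i, WA b' i ↔ WA P i ∨ WA (l :: q) i ∨ WJ (-t) l i := by
    intro i
    rw [hb', hrn, WA_append, ← hrn, WA_rn]
  -- the wrong adjacencies
  have hA : ∀ i ∈ WS n b, ¬ WJ u l i → i ∈ WS n b' := by
    intro i hi hj
    unfold WS at hi ⊢
    rw [Finset.mem_filter] at hi ⊢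
    refine ⟨hi.1, (hWb' i).2 ?_⟩
    rcases (hWb i).1 hi.2 with h | h | h
    · exact Or.inl h
    · exact Or.inr (Or.inl h)
    · exact absurd h hj
  have hpos : ∀ i ∈ WS n b, 1 ≤ i := by
    intro i hi
    unfold WS at hi
    rw [Finset.mem_filter, Finset.mem_Icc] at hi
    exact hi.1.1
  -- either nothing is lost, or `k` is lost and the new top points to a neighbour of `k`
  have hcase : WS n b ⊆ WS n b' ∨ ∃ k, k ∈ WS n b ∧ WJ u l k ∧
      (WS n b).erase k ⊆ WS n b' := by
    by_cases h : ∃ k ∈ WS n b, WJ u l k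
    · obtain ⟨k, hk, hj⟩ := h
      refine Or.inr ⟨k, hk, hj, ?_⟩
      intro i hi
      rw [Finset.mem_erase] at hi
      refine hA i hi.2 ?_
      intro hj'
      have := hpos i hi.2
      have := hpos k hk
      apply hi.1
      unfold WJ at hj hj'
      omega
    · left
      intro i hi
      refine hA i hi fun hj => h ⟨i, hi, hj⟩
  have hidx : ∀ k, 1 ≤ k → WJ u l k → (u = -k ∧ l = -(k + 1) ∧ idx (-u) = k - 1) ∨
      (u = k + 1 ∧ l = k ∧ idx (-u) = k + 1) := by
    intro k hk hj
    unfold idx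
    rcases hj with ⟨h, h'⟩ | ⟨h, h'⟩
    · left
      refine ⟨h, h', ?_⟩
      rw [if_pos (by omega)]
      omega
    · right
      refine ⟨h, h', ?_⟩
      rw [if_neg (by omega)]
      omega
  -- the good adjacencies
  have hG : GS n b' ⊆ insert (idx t) (GS n b) := by
    intro i hi
    rw [Finset.mem_insert]
    unfold GS at hi ⊢
    rw [Finset.mem_filter] at hi ⊢
    rcases (hGb' i).1 hi.2 with h | h | h
    · exact Or.inr ⟨hi.1, (hGb i).2 (Or.inl h)⟩
    · exact Or.inr ⟨hi.1, (hGb i).2 (Or.inr (Or.inl h))⟩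
    · left
      exact (idx_of_GJ (Finset.mem_Icc.1 hi.1).1 h).symm
  have hGcard : (GS n b').card ≤ (GS n b).card + 1 :=
    (Finset.card_le_card hG).trans (Finset.card_insert_le _ _)
  have hnew : (GS n b).card < (GS n b').card → GJ (-t) l (idx t) ∧ 1 ≤ idx t := by
    intro hlt
    have h3 : ¬ GS n b' ⊆ GS n b := fun h => absurd (Finset.card_le_card h) (by omega)
    rw [Finset.not_subset] at h3
    obtain ⟨i, hi, hi'⟩ := h3
    have hi2 : i = idx t := by
      have := hG hi
      rw [Finset.mem_insert] at this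
      exact this.resolve_right hi'
    unfold GS at hi hi'
    rw [Finset.mem_filter] at hi hi'
    have h4 : GJ (-t) l i := by
      rcases (hGb' i).1 hi.2 with h | h | h
      · exact absurd ⟨hi.1, (hGb i).2 (Or.inl h)⟩ hi'
      · exact absurd ⟨hi.1, (hGb i).2 (Or.inr (Or.inl h))⟩ hi'
      · exact h
    rw [← hi2]
    exact ⟨h4, (Finset.mem_Icc.1 hi.1).1⟩
  have hd : (if idx t ∈ WS n b then (1 : ℤ) else 0) ≤ 1 := by split_ifs <;> norm_num
  have hd0 : (0 : ℤ) ≤ if idx (-u) ∈ WS n b' then (1 : ℤ) else 0 := by split_ifs <;> norm_num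
  unfold pot
  by_cases hlt : (GS n b).card < (GS n b').card
  · obtain ⟨hj, hi1⟩ := hnew hlt
    have hnot : idx t ∉ WS n b := by
      intro h
      unfold WS at h
      rw [Finset.mem_filter] at h
      exact lock hN ht hl hj h.2
    rw [if_neg hnot]
    rcases hcase with hsub | ⟨k, hk, hwj, hsub⟩
    · have := prs_mono hsub
      omega
    · have h5 := prs_mono hsub
      have h6 := prs_erase (WS n b) k
      have hk1 := hpos k hk
      have hu : idx (-u) ≠ k → idx (-u) ∈ WS n b → idx (-u) ∈ WS n b' := by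
        intro h7 h8
        exact hsub (Finset.mem_erase.2 ⟨h7, h8⟩)
      rcases hidx k hk1 hwj with ⟨e1, e2, e3⟩ | ⟨e1, e2, e3⟩
      · have h9 : idx t = k + 1 := by
          rcases hj with ⟨h7, h8⟩ | ⟨h7, h8⟩ <;> omega
        rw [h9] at hnot
        rw [if_neg hnot] at h6
        rw [e3] at hu ⊢
        by_cases h10 : k - 1 ∈ WS n b
        · rw [if_pos h10] at h6
          rw [if_pos (hu (by omega) h10)]
          omega
        · rw [if_neg h10] at h6
          split_ifs <;> omega
      · have h9 : idx t = k - 1 := by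
          rcases hj with ⟨h7, h8⟩ | ⟨h7, h8⟩ <;> omega
        rw [h9] at hnot
        rw [if_neg hnot] at h6
        rw [e3] at hu ⊢
        by_cases h10 : k + 1 ∈ WS n b
        · rw [if_pos h10] at h6
          rw [if_pos (hu (by omega) h10)]
          omega
        · rw [if_neg h10] at h6
          split_ifs <;> omega
  · rcases hcase with hsub | ⟨k, hk, hwj, hsub⟩
    · have := prs_mono hsub
      omega
    · have h5 := prs_mono hsub
      have h6 := prs_erase (WS n b) k
      have hk1 := hpos k hk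
      have hu : idx (-u) ≠ k → idx (-u) ∈ WS n b → idx (-u) ∈ WS n b' := by
        intro h7 h8
        exact hsub (Finset.mem_erase.2 ⟨h7, h8⟩)
      rcases hidx k hk1 hwj with ⟨e1, e2, e3⟩ | ⟨e1, e2, e3⟩
      · rw [e3] at hu ⊢
        by_cases h10 : k - 1 ∈ WS n b
        · rw [if_pos h10] at h6
          rw [if_pos (hu (by omega) h10)]
          split_ifs at h6 ⊢ <;> omega
        · rw [if_neg h10] at h6
          split_ifs at h6 ⊢ <;> omega
      · rw [e3] at hu ⊢
        by_cases h10 : k + 1 ∈ WS n b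
        · rw [if_pos h10] at h6
          rw [if_pos (hu (by omega) h10)]
          split_ifs at h6 ⊢ <;> omega
        · rw [if_neg h10] at h6
          split_ifs at h6 ⊢ <;> omega

/-- the potential of a signed permutation -/
noncomputable def potL (n : ℕ) (a : List ℤ) : ℤ := pot n (a ++ [(n : ℤ) + 1]) (a.headD 0)

theorem noNeg_of_isSP {n : ℕ} {a : List ℤ} (ha : BP.IsSP n a) : NoNeg (a ++ [(n : ℤ) + 1]) := by
  intro x hx hx'
  have h0 : ∀ y ∈ a, 1 ≤ y.natAbs ∧ y.natAbs ≤ n := by
    intro y hy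
    have h1 : y.natAbs ∈ a.map Int.natAbs := List.mem_map_of_mem hy
    have h2 := (ha.mem_iff).1 h1
    rw [List.mem_range'_1] at h2
    omega
  have hnd : (a.map Int.natAbs).Nodup := (ha.nodup_iff).2 (List.nodup_range')
  rw [List.mem_append, List.mem_singleton] at hx hx'
  rcases hx with hx | hx
  · rcases hx' with hx' | hx'
    · have h3 := List.inj_on_of_nodup_map hnd hx hx' (by simp)
      have := h0 x hx
      omega
    · have := h0 x hx
      omega
  · rcases hx' with hx' | hx'
    · have := h0 (-x) hx'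
      omega
    · omega

theorem potL_flip {n k : ℕ} {a : List ℤ} (ha : BP.IsSP n a) (hk : 1 ≤ k) (hkn : k ≤ n) :
    potL n a ≤ potL n (BP.pflip k a) + 2 := by
  have hlen : a.length = n := by
    have := ha.length_eq
    simpa using this
  obtain ⟨t, P₂, h1⟩ : ∃ t P₂, a.take k = t :: P₂ := by
    match h : a.take k with
    | [] =>
      have := congrArg List.length h
      simp only [List.length_take, List.length_nil] at this
      omega
    | t :: P₂ => exact ⟨t, P₂, rfl⟩
  obtain ⟨P₁, u, h2⟩ : ∃ P₁ u, a.take k = P₁ ++ [u] := by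
    rcases List.eq_nil_or_concat (a.take k) with h | ⟨P₁, u, h⟩
    · rw [h] at h1
      cases h1
    · exact ⟨P₁, u, by simpa using h⟩
  obtain ⟨l, q, h3⟩ : ∃ l q, a.drop k ++ [(n : ℤ) + 1] = l :: q := by
    match h : a.drop k with
    | [] => exact ⟨_, _, rfl⟩
    | l :: q => exact ⟨_, _, rfl⟩
  have h4 : a ++ [(n : ℤ) + 1] = a.take k ++ l :: q := by
    rw [← h3, ← List.append_assoc, List.take_append_drop]
  have h5 : BP.pflip k a ++ [(n : ℤ) + 1] = rn (a.take k) ++ l :: q := by
    rw [← h3, ← List.append_assoc]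
    rfl
  have h6 : a.headD 0 = t := by
    have : a = t :: (P₂ ++ a.drop k) := by
      conv_lhs => rw [← List.take_append_drop k a, h1]
      rfl
    rw [this]
    rfl
  have h7 : (BP.pflip k a).headD 0 = -u := by
    unfold BP.pflip
    rw [h2]
    simp
  have h8 := noNeg_of_isSP ha
  unfold potL
  rw [h4, h5, h6, h7]
  rw [h4] at h8
  exact pot_flip n h1 h2 h8

theorem potL_flips {n : ℕ} (ks : List ℕ) : ∀ {a : List ℤ}, BP.IsSP n a →
    (∀ k ∈ ks, 1 ≤ k ∧ k ≤ n) → potL n a ≤ potL n (BP.pflips ks a) + 2 * ks.length := by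
  induction ks with
  | nil => intro a _ _; simp [BP.pflips]
  | cons k ks ih =>
    intro a ha hk
    have h1 := hk k List.mem_cons_self
    have h2 := potL_flip ha h1.1 h1.2
    have h3 := ih (BP.isSP_pflip ha k) fun j hj => hk j (List.mem_cons_of_mem _ hj)
    have h4 : BP.pflips (k :: ks) a = BP.pflips ks (BP.pflip k a) := rfl
    rw [h4, List.length_cons]
    push_cast
    omega

theorem cons_iff_getElem? {b : List ℤ} {x y : ℤ} :
    Cons b x y ↔ ∃ j : ℕ, b[j]? = some x ∧ b[j + 1]? = some y := by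
  constructor
  · rintro ⟨p, q, rfl⟩
    refine ⟨p.length, by simp, ?_⟩
    rw [List.getElem?_append_right (by omega)]
    simp
  · rintro ⟨j, h1, h2⟩
    obtain ⟨h3, h4⟩ := List.getElem?_eq_some_iff.1 h1
    obtain ⟨h5, h6⟩ := List.getElem?_eq_some_iff.1 h2
    refine ⟨b.take j, b.drop (j + 2), ?_⟩
    conv_lhs => rw [← List.take_append_drop j b, List.drop_eq_getElem_cons h3,
      List.drop_eq_getElem_cons h5]
    rw [h4, h6]

/-- `-I_n` -/
def negI (n : ℕ) : List ℤ := (List.range' 1 n).map fun i : ℕ => -(i : ℤ)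

theorem ident_eq (n : ℕ) : BP.ident n = (List.range' 1 n).map fun i : ℕ => (i : ℤ) := by
  unfold BP.ident
  rw [List.map_id']
  exact List.flatMap_pure_eq_map _ _

theorem isSP_negI (n : ℕ) : BP.IsSP n (negI n) := by
  unfold BP.IsSP negI
  rw [List.map_map]
  have : (Int.natAbs ∘ fun i : ℕ => -(i : ℤ)) = id := by
    funext i
    simp
  rw [this, List.map_id]

theorem negI_get (n j : ℕ) : (negI n ++ [(n : ℤ) + 1])[j]? =
    if j < n then some (-((j : ℤ) + 1)) else if j = n then some ((n : ℤ) + 1) else none := by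
  have hlen : (negI n).length = n := by simp [negI]
  split_ifs with h1 h2
  · rw [List.getElem?_append_left (by omega)]
    unfold negI
    rw [List.getElem?_map, List.getElem?_range' h1]
    simp [add_comm]
  · rw [List.getElem?_append_right (by omega), hlen, h2]
    simp
  · rw [List.getElem?_eq_none]
    simp only [List.length_append, hlen, List.length_singleton]
    omega

theorem ident_get (n j : ℕ) : (BP.ident n ++ [(n : ℤ) + 1])[j]? =
    if j ≤ n then some ((j : ℤ) + 1) else none := by
  have hlen : (BP.ident n).length = n := by simp [BP.ident]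
  split_ifs with h1
  · by_cases h2 : j < n
    · rw [List.getElem?_append_left (by omega), ident_eq]
      rw [List.getElem?_map, List.getElem?_range' h2]
      simp [add_comm]
    · have h3 : j = n := by omega
      rw [List.getElem?_append_right (by omega), hlen, h3]
      simp
  · rw [List.getElem?_eq_none]
    simp only [List.length_append, hlen, List.length_singleton]
    omega

theorem potL_ident (n : ℕ) : potL n (BP.ident n) ≤ 0 := by
  classical
  have h1 : GS n (BP.ident n ++ [(n : ℤ) + 1]) = Finset.Icc (1 : ℤ) n := by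
    unfold GS
    rw [Finset.filter_eq_self]
    intro i hi
    rw [Finset.mem_Icc] at hi
    left
    rw [cons_iff_getElem?]
    refine ⟨(i - 1).toNat, ?_, ?_⟩
    · rw [ident_get, if_pos (by omega)]
      congr 1
      omega
    · rw [ident_get, if_pos (by omega)]
      congr 1
      omega
  have h2 : WS n (BP.ident n ++ [(n : ℤ) + 1]) = ∅ := by
    unfold WS
    rw [Finset.filter_eq_empty_iff]
    intro i hi hw
    rw [Finset.mem_Icc] at hi
    unfold WA at hw
    rw [cons_iff_getElem?, cons_iff_getElem?] at hw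
    rcases hw with ⟨j, h3, h4⟩ | ⟨j, h3, h4⟩
    · rw [ident_get] at h3 h4
      split_ifs at h3 h4 <;> simp only [Option.some.injEq] at h3 h4
      omega
    · rw [ident_get] at h3 h4
      split_ifs at h3 h4 <;> simp only [Option.some.injEq] at h3 h4
      push_cast at h4
      omega
  unfold potL pot
  rw [h1, h2]
  simp [prs]

theorem le_potL_negI (n : ℕ) : 3 * (n : ℤ) ≤ potL n (negI n) + 1 := by
  classical
  have h1 : GS n (negI n ++ [(n : ℤ) + 1]) = ∅ := by
    unfold GS
    rw [Finset.filter_eq_empty_iff]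
    intro i hi hw
    rw [Finset.mem_Icc] at hi
    unfold GA at hw
    rw [cons_iff_getElem?, cons_iff_getElem?] at hw
    rcases hw with ⟨j, h3, h4⟩ | ⟨j, h3, h4⟩
    · rw [negI_get] at h3 h4
      split_ifs at h3 h4 <;> simp only [Option.some.injEq] at h3 h4 <;> omega
    · rw [negI_get] at h3 h4
      split_ifs at h3 h4 <;> simp only [Option.some.injEq] at h3 h4 <;>
        push_cast at h4 <;> omega
  have h2 : ∀ i, i ∈ WS n (negI n ++ [(n : ℤ) + 1]) ↔ 1 ≤ i ∧ i ≤ (n : ℤ) - 1 := by
    intro i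
    unfold WS
    rw [Finset.mem_filter, Finset.mem_Icc]
    constructor
    · rintro ⟨hi, hw⟩
      refine ⟨hi.1, ?_⟩
      unfold WA at hw
      rw [cons_iff_getElem?, cons_iff_getElem?] at hw
      rcases hw with ⟨j, h3, h4⟩ | ⟨j, h3, h4⟩
      · rw [negI_get] at h3 h4
        split_ifs at h3 h4 <;> simp only [Option.some.injEq] at h3 h4 <;>
          push_cast at h4 <;> omega
      · rw [negI_get] at h3 h4
        split_ifs at h3 h4 <;> simp only [Option.some.injEq] at h3 h4 <;>
          push_cast at h4 <;> omega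
    · rintro ⟨h3, h4⟩
      refine ⟨⟨h3, by omega⟩, Or.inl ?_⟩
      rw [cons_iff_getElem?]
      refine ⟨(i - 1).toNat, ?_, ?_⟩
      · rw [negI_get, if_pos (by omega)]
        congr 1
        omega
      · rw [negI_get, if_pos (by omega)]
        congr 1
        push_cast
        omega
  rcases Nat.lt_or_ge n 2 with hn | hn
  · have : (0 : ℤ) ≤ (prs (WS n (negI n ++ [(n : ℤ) + 1])) : ℤ) := Int.natCast_nonneg _
    unfold potL pot
    rw [h1]
    simp only [Finset.card_empty]
    split_ifs <;> omega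
  · have h5 : (n : ℤ) - 2 ≤ (prs (WS n (negI n ++ [(n : ℤ) + 1])) : ℤ) := by
      have h6 : Finset.Icc (1 : ℤ) ((n : ℤ) - 2) ⊆
          (WS n (negI n ++ [(n : ℤ) + 1])).filter
            fun i => i + 1 ∈ WS n (negI n ++ [(n : ℤ) + 1]) := by
        intro i hi
        rw [Finset.mem_Icc] at hi
        rw [Finset.mem_filter, h2, h2]
        omega
      have h7 := Finset.card_le_card h6
      rw [Int.card_Icc] at h7
      unfold prs
      omega
    have h8 : (negI n).headD 0 = -1 := by
      obtain ⟨m, rfl⟩ : ∃ m, n = m + 1 := ⟨n - 1, by omega⟩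
      simp [negI, List.range'_succ]
    have h9 : idx ((negI n).headD 0) ∈ WS n (negI n ++ [(n : ℤ) + 1]) := by
      rw [h2, h8]
      unfold idx
      rw [if_neg (by norm_num)]
      omega
    unfold potL pot
    rw [h1, if_pos h9]
    simp only [Finset.card_empty]
    omega

/-- `-I_n` needs at least `(3 n - 1) / 2` flips -/
theorem lower_bound (n : ℕ) (ks : List ℕ) (hk : ∀ k ∈ ks, 1 ≤ k ∧ k ≤ n)
    (h : BP.pflips ks (negI n) = BP.ident n) : 3 * n ≤ 2 * ks.length + 1 := by
  have h1 := potL_flips ks (isSP_negI n) hk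
  have h2 := potL_ident n
  have h3 := le_potL_negI n
  rw [h] at h1
  omega

end BP2.Low
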