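import Mathlib
import Pool.Agent.BP2.Burnt
import Pool.Agent.BP2.Assembly
import Pool.Agent.BP2.Lower

set_option autoImplicit false

/-! # MP_475aca_co: from the two bounds to the limit -/

namespace BP2

open BP

/-- a bound for all signed permutations bounds `g(n)` -/
theorem burntNumber_le {n : ℕ} {N : ℕ} (h : ∀ a : List ℤ, IsSP n a → ∃ ks : List ℕ,
    (∀ k ∈ ks, 1 ≤ k ∧ k ≤ n) ∧ pflips ks a = ident n ∧ ks.length ≤ N) : burntNumber n ≤ N := by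
  unfold burntNumber
  refine csSup_le' ?_
  rintro k ⟨a, ha, rfl⟩
  obtain ⟨ks, h1, h2, h3⟩ := h a ha
  refine le_trans (Nat.sInf_le ⟨ks, rfl, h1, h2⟩) h3

/-- `f(a) ≤ g(n)` -/
theorem le_burntNumber {n : ℕ} {N : ℕ} (h : ∀ a : List ℤ, IsSP n a → ∃ ks : List ℕ,
    (∀ k ∈ ks, 1 ≤ k ∧ k ≤ n) ∧ pflips ks a = ident n ∧ ks.length ≤ N) {a : List ℤ}
    (ha : IsSP n a) : ∃ ks : List ℕ, (∀ k ∈ ks, 1 ≤ k ∧ k ≤ n) ∧ pflips ks a = ident n ∧
      ks.length ≤ burntNumber n := by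
  have hne : {k | ∃ ks : List ℕ, ks.length = k ∧ (∀ j ∈ ks, 1 ≤ j ∧ j ≤ n) ∧
      pflips ks a = ident n}.Nonempty := by
    obtain ⟨ks, h1, h2, _⟩ := h a ha
    exact ⟨_, ks, rfl, h1, h2⟩
  obtain ⟨ks, h1, h2, h3⟩ := Nat.sInf_mem hne
  refine ⟨ks, h2, h3, ?_⟩
  rw [h1]
  refine le_csSup ⟨N, ?_⟩ ⟨a, ha, rfl⟩
  rintro k ⟨b, hb, rfl⟩
  obtain ⟨ks', h1', h2', h3'⟩ := h b hb
  exact le_trans (Nat.sInf_le ⟨ks', rfl, h1', h2'⟩) h3'

theorem tendsto_of_goal (hG : Goal) :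
    Filter.Tendsto (fun n : ℕ => (burntNumber n : ℝ) / n) Filter.atTop (nhds (3 / 2)) := by
  rw [Metric.tendsto_atTop]
  intro ε hε
  obtain ⟨C, hC⟩ := bound_of_goal hG (ε / 2) (by positivity)
  obtain ⟨N, hN⟩ := exists_nat_gt (2 * |C| / ε + 1 / ε + 1)
  refine ⟨N, fun n hn => ?_⟩
  have hn' : (N : ℝ) ≤ n := by exact_mod_cast hn
  have h0 : 0 ≤ 2 * |C| / ε := by positivity
  have h0' : 0 < 1 / ε := by positivity
  have hn1 : (1 : ℝ) < n := by linarith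
  have hn0 : (0 : ℝ) < n := by linarith
  have hnC : 2 * |C| < ε * n := by
    have : 2 * |C| / ε < n := by linarith
    rw [div_lt_iff₀ hε] at this
    linarith
  have hnE : 1 < ε * n := by
    have : 1 / ε < n := by linarith
    rw [div_lt_iff₀ hε] at this
    linarith
  -- natural number bound
  have hb : ∀ a : List ℤ, IsSP n a → ∃ ks : List ℕ, (∀ k ∈ ks, 1 ≤ k ∧ k ≤ n) ∧
      pflips ks a = ident n ∧ ks.length ≤ ⌊(3 / 2 + ε / 2) * n + C⌋₊ := by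
    intro a ha
    obtain ⟨ks, h1, h2, h3⟩ := hC n a ha
    exact ⟨ks, h1, h2, Nat.le_floor h3⟩
  -- upper bound
  have hup : (burntNumber n : ℝ) ≤ (3 / 2 + ε / 2) * n + C := by
    have h1 := burntNumber_le hb
    have h2 : (0 : ℝ) ≤ (3 / 2 + ε / 2) * n + C := by
      have := neg_abs_le C
      nlinarith
    exact le_trans (Nat.cast_le.2 h1) (Nat.floor_le h2)
  -- lower bound
  have hlo : 3 * (n : ℝ) ≤ 2 * burntNumber n + 1 := by
    obtain ⟨ks, h1, h2, h3⟩ := le_burntNumber hb (BP2.Low.isSP_negI n)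
    have h4 := BP2.Low.lower_bound n ks h1 h2
    have h5 : 3 * n ≤ 2 * burntNumber n + 1 := by omega
    exact_mod_cast h5
  rw [Real.dist_eq, abs_lt]
  constructor
  · rw [lt_sub_iff_add_lt, lt_div_iff₀ hn0]
    nlinarith
  · rw [sub_lt_iff_lt_add, div_lt_iff₀ hn0]
    have := le_abs_self C
    nlinarith

/-- with explicit constants: `3 n ≤ 2 g(n) + 1`, `g(n) ≤ (3/2 + ε) n + C(ε)` -/
theorem lower_of_goal (hG : Goal) (n : ℕ) : 3 * n ≤ 2 * burntNumber n + 1 := by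
  obtain ⟨C, hC⟩ := bound_of_goal hG 1 one_pos
  have hb : ∀ a : List ℤ, IsSP n a → ∃ ks : List ℕ, (∀ k ∈ ks, 1 ≤ k ∧ k ≤ n) ∧
      pflips ks a = ident n ∧ ks.length ≤ ⌊(3 / 2 + 1) * (n : ℝ) + C⌋₊ := by
    intro a ha
    obtain ⟨ks, h1, h2, h3⟩ := hC n a ha
    exact ⟨ks, h1, h2, Nat.le_floor h3⟩
  obtain ⟨ks, h1, h2, h3⟩ := le_burntNumber hb (BP2.Low.isSP_negI n)
  have h4 := BP2.Low.lower_bound n ks h1 h2
  omega

/-- both bounds: `(3 n - 1) / 2 ≤ g(n) ≤ (3/2 + ε) n + C(ε)` -/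
theorem two_sided_of_goal (hG : Goal) (ε : ℝ) (hε : 0 < ε) : ∃ C : ℝ, ∀ n : ℕ,
    (3 * (n : ℝ) - 1) / 2 ≤ burntNumber n ∧ (burntNumber n : ℝ) ≤ (3 / 2 + ε) * n + C := by
  obtain ⟨C, hC⟩ := bound_of_goal hG ε hε
  refine ⟨|C|, fun n => ⟨?_, ?_⟩⟩
  · have h1 := lower_of_goal hG n
    have h2 : 3 * (n : ℝ) ≤ 2 * burntNumber n + 1 := by exact_mod_cast h1
    linarith
  · have hb : ∀ a : List ℤ, IsSP n a → ∃ ks : List ℕ, (∀ k ∈ ks, 1 ≤ k ∧ k ≤ n) ∧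
        pflips ks a = ident n ∧ ks.length ≤ ⌊(3 / 2 + ε) * (n : ℝ) + |C|⌋₊ := by
      intro a ha
      obtain ⟨ks, h1, h2, h3⟩ := hC n a ha
      refine ⟨ks, h1, h2, Nat.le_floor (h3.trans ?_)⟩
      have := le_abs_self C
      linarith
    have h1 := burntNumber_le hb
    have h2 : (0 : ℝ) ≤ (3 / 2 + ε) * n + |C| := by positivity
    exact le_trans (Nat.cast_le.2 h1) (Nat.floor_le h2)

end BP2
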