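import Mathlib

set_option autoImplicit false

/-!
The number of the class preserving bijections.
-/

namespace BP2

open Finset Function

/-- The class preserving bijections. -/
noncomputable def Om {α β γ : Type*} [Fintype α] [Fintype β] (cA : α → γ) (cB : β → γ) :
    Finset (α → β) := by
  classical
  exact univ.filter fun w => Bijective w ∧ ∀ a, cB (w a) = cA a

lemma mem_Om {α β γ : Type*} [Fintype α] [Fintype β] {cA : α → γ} {cB : β → γ} {w : α → β} :
    w ∈ Om cA cB ↔ Bijective w ∧ ∀ a, cB (w a) = cA a := by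
  classical
  unfold Om
  simp

lemma exists_perm_class {α γ : Type*} [Finite α] (f g : α → γ)
    (h : ∀ c, Nat.card {a // f a = c} = Nat.card {a // g a = c}) :
    ∃ σ : α ≃ α, ∀ a, g (σ a) = f a := by
  classical
  have e : ∀ c, Nonempty ({a // f a = c} ≃ {a // g a = c}) := fun c =>
    Finite.card_eq.1 (h c)
  refine ⟨Equiv.ofFiberEquiv (f := f) (g := g) fun c => (e c).some, ?_⟩
  intro a
  exact Equiv.ofFiberEquiv_map _ a

theorem factorial_le_card_Om {α β γ : Type*} [Fintype α] [Fintype β] [Fintype γ]
    (cA : α → γ) (cB : β → γ)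
    (h : ∀ c, Nat.card {a // cA a = c} = Nat.card {b // cB b = c}) :
    (Fintype.card α).factorial ≤
      Fintype.card γ ^ Fintype.card α * (Om cA cB).card := by
  classical
  -- the two sets have the same size
  obtain ⟨e₀⟩ : Nonempty (α ≃ β) := by
    have e : ∀ c, Nonempty ({a // cA a = c} ≃ {b // cB b = c}) := fun c =>
      Finite.card_eq.1 (h c)
    exact ⟨Equiv.ofFiberEquiv (f := cA) (g := cB) fun c => (e c).some⟩
  have hcard : Fintype.card (α ≃ β) = (Fintype.card α).factorial :=
    Fintype.card_equiv e₀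
  rw [← hcard, ← Finset.card_univ, ← Fintype.card_fun, ← Finset.card_univ (α := α → γ),
    ← Finset.card_product]
  -- a permutation for every class function
  have hex : ∀ f : α → γ, ∃ σ : α ≃ α, (∀ c, Nat.card {a // f a = c} = Nat.card {a // cA a = c}) →
      ∀ a, cA (σ a) = f a := by
    intro f
    by_cases hf : ∀ c, Nat.card {a // f a = c} = Nat.card {a // cA a = c}
    · obtain ⟨σ, hσ⟩ := exists_perm_class f cA hf
      exact ⟨σ, fun _ => hσ⟩
    · exact ⟨Equiv.refl _, fun h => absurd h hf⟩
  choose ρ hρ using hex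
  refine Finset.card_le_card_of_injOn
    (fun e : α ≃ β => (fun a => cB (e a), fun a => e ((ρ fun a => cB (e a)).symm a))) ?_ ?_
  · intro e _
    simp only [coe_product, Set.mem_prod, mem_coe, mem_univ, true_and, mem_Om]
    have hf : ∀ c, Nat.card {a // cB (e a) = c} = Nat.card {a // cA a = c} := by
      intro c
      rw [h c]
      exact Nat.card_congr (e.subtypeEquiv fun a => Iff.rfl)
    refine ⟨e.bijective.comp (ρ fun a => cB (e a)).symm.bijective, fun a => ?_⟩
    have h1 := hρ (fun a => cB (e a)) hf ((ρ fun a => cB (e a)).symm a)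
    rw [Equiv.apply_symm_apply] at h1
    exact h1.symm
  · intro e _ e' _ heq
    rw [Prod.ext_iff] at heq
    obtain ⟨h1, h2⟩ := heq
    simp only at h1 h2
    ext a
    have h3 := congrFun h2 ((ρ fun a => cB (e a)) a)
    simp only [Equiv.symm_apply_apply] at h3
    rw [h3, ← h1, Equiv.symm_apply_apply]

lemma pow_self_le (n : ℕ) : n ^ n ≤ 3 ^ n * n.factorial := by
  have h1 : (n : ℝ) ^ n / n.factorial ≤ Real.exp n := Real.pow_div_factorial_le_exp _
    (Nat.cast_nonneg n) n
  have h2 : Real.exp n ≤ 3 ^ n := by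
    have h3 : Real.exp (n : ℝ) = Real.exp 1 ^ n := by
      rw [← Real.exp_nat_mul, mul_one]
    rw [h3]
    exact pow_le_pow_left₀ (Real.exp_pos 1).le (by linarith [Real.exp_one_lt_d9]) n
  have h4 : (0 : ℝ) < n.factorial := by exact_mod_cast n.factorial_pos
  have h5 : (n : ℝ) ^ n ≤ 3 ^ n * n.factorial := by
    rw [div_le_iff₀ h4] at h1
    exact h1.trans (mul_le_mul_of_nonneg_right h2 h4.le)
  exact_mod_cast h5

/-- The lower bound for the number of the class preserving bijections. -/
theorem pow_self_le_card_Om {α β γ : Type*} [Fintype α] [Fintype β] [Fintype γ]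
    (cA : α → γ) (cB : β → γ)
    (h : ∀ c, Nat.card {a // cA a = c} = Nat.card {b // cB b = c}) :
    Fintype.card α ^ Fintype.card α ≤
      (3 * Fintype.card γ) ^ Fintype.card α * (Om cA cB).card := by
  calc Fintype.card α ^ Fintype.card α
      ≤ 3 ^ Fintype.card α * (Fintype.card α).factorial := pow_self_le _
    _ ≤ 3 ^ Fintype.card α * (Fintype.card γ ^ Fintype.card α * (Om cA cB).card) :=
        Nat.mul_le_mul_left _ (factorial_le_card_Om cA cB h)
    _ = _ := by rw [mul_pow]; ring

end BP2
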