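import Pool.Agent.BP2.MCirc
import Pool.Agent.BP2.MOmega

set_option autoImplicit false

/-!
# The three facts about flips which M5 (counting, union bound, sum over the levels) uses

* `TrivHyp` : `chg X Y` flips lead from `X` to `Y`, `chg` = number of the labels whose adjacency
  changes (every missing adjacency of `Y` costs at most two flips).
* `PosHyp` : slots: an arrangement numbers the labels `0, 1, ..., 2 n` from the top to the floor;
  in the slots the elements are `e0 n` and the arrangement is `y0 n`.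
* `FarHyp` : from (D), gaps only: for all but few `θ` (arrangements of the standard elements) the
  flips from `y0 n` to `θ` are at most `(1 + 1/m)` times the number of the changed adjacencies
  (`h` = number of the changed labels, `h / 2` adjacencies).
* `LocHyp` : from (D), gaps and markers: a local transition from a FIXED arrangement `X`; `W` = the
  bijection of the out-labels to the in-labels; for all but few `W` the flips from `X` to an
  arrangement which differs from `gw (X0 I X U) Out W` at few labels are at most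
  `(1 + 1/m)` times `2 * #Out` (`2 * #Out` = number of the new adjacencies).

All numbers are natural numbers. `Λ` is arbitrary (failure rate smaller than every exponential).
-/

namespace BP2

open Finset Function

variable {L : Type*}

open Classical in
/-- number of the labels whose adjacency changes -/
noncomputable def chg [Fintype L] (X Y : L → L) : ℕ := (univ.filter fun x => X x ≠ Y x).card

/-- the elements in the slots `0, ..., 2 n`: `(0 1) (2 3) ...`, the last slot is the floor -/
def e0 (n : ℕ) (i : Fin (2 * n + 1)) : Fin (2 * n + 1) :=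
  if h : (i : ℕ) = 2 * n then i
  else if h' : (i : ℕ) % 2 = 0 then ⟨i + 1, by omega⟩ else ⟨i - 1, by omega⟩

/-- the arrangement in the slots: `0` is the top, `(1 2) (3 4) ...` -/
def y0 (n : ℕ) (i : Fin (2 * n + 1)) : Fin (2 * n + 1) :=
  if h : (i : ℕ) = 0 then i
  else if h' : (i : ℕ) % 2 = 0 then ⟨i - 1, by omega⟩ else ⟨i + 1, by omega⟩

/-- (M3) -/
def TrivHyp : Prop :=
  ∀ (L : Type) [Fintype L] (E X Y : L → L), IsEl E → IsArr E X → IsArr E Y →
    ∃ k ≤ chg X Y, Reach E k X Y

/-- (M2/M3) -/
def PosHyp : Prop :=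
  ∀ (L : Type) [Fintype L] (E X : L → L) (n : ℕ), Fintype.card L = 2 * n + 1 → IsEl E →
    IsArr E X → ∃ p : L ≃ Fin (2 * n + 1), (∀ x, p (E x) = e0 n (p x)) ∧
      (∀ x, p (X x) = y0 n (p x))

/-- the expensive `θ` with `h` changed labels -/
def BadTh (n m C h : ℕ) : Set (Fin (2 * n + 1) → Fin (2 * n + 1)) :=
  {θ | IsArr (e0 n) θ ∧ chg (y0 n) θ = h ∧
    ¬ ∃ k, Reach (e0 n) k (y0 n) θ ∧ 2 * m * k ≤ (m + 1) * h + C}

/-- (D) + (M3) -/
def FarHyp : Prop :=
  ∃ K : ℕ, ∀ m Λ : ℕ, 0 < m → ∃ C : ℕ, ∀ n h : ℕ,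
    Nat.card (BadTh n m C h) * Λ ^ h ≤ C * K ^ n * (2 * n + 1) ^ (h / 2)

open Classical in
/-- `X` after the local units, the new labels are loose -/
noncomputable def X0 (I X : L → L) (U : Set L) (z : L) : L :=
  if z ∈ U then I z else if X z ∈ U then z else X z

/-- the data of a local transition: `K` = rigid adjacencies, `U` = labels of the new adjacencies,
`P` = first label. -/
structure LocData (E I K : L → L) (U : Set L) (P : L → Prop) : Prop where
  invK : Involutive K
  acyc : Acyc E K
  invI : ∀ x ∈ U, I x ∈ U ∧ I (I x) = x ∧ I x ≠ x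
  opened : ∀ x ∈ U, K x ≠ x ∧ K x ∉ U
  first : ∀ x ∈ U, (P x ↔ ¬ P (I x))
  body : ∀ x ∈ U, Conn E K x (I x)
  side : ∀ x ∈ U, P x → ¬ Conn E (cut K x) x (I x)
  one : ∀ x ∈ U, ∀ y ∈ U, P x → P y → Conn E K x y → x = y

/-- the out-labels -/
def OutL (K : L → L) (U : Set L) (P : L → Prop) : Set L := {z | K z ∈ U ∧ P (K z)}

/-- the in-labels -/
def InL (I K : L → L) (U : Set L) (P : L → Prop) : Set L := {z | K z ∈ U ∧ P (I (K z))}

/-- the bijections from the out-labels to the in-labels, the identity elsewhere -/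
def BijOI (I K : L → L) (U : Set L) (P : L → Prop) : Set (L → L) :=
  {W | Set.BijOn W (OutL K U P) (InL I K U P) ∧ ∀ z, z ∉ OutL K U P → W z = z}

/-- `W` is cheap for the local transition from `X` -/
def LocGood [Fintype L] (E I K X : L → L) (U : Set L) (P : L → Prop) (n m C : ℕ) (W : L → L) :
    Prop :=
  ∃ Y, IsArr E Y ∧ m * chg Y (gw (X0 I X U) (OutL K U P) W) ≤ n + C ∧
    ∃ k, Reach E k X Y ∧ m * k ≤ 2 * (m + 1) * (OutL K U P).ncard + n + C

/-- (D) + (M4) -/
def LocHyp : Prop :=
  ∃ K₀ : ℕ, ∀ m Λ : ℕ, 0 < m → ∃ C : ℕ, ∀ (L : Type) [Fintype L] (E I K X : L → L) (U : Set L)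
    (P : L → Prop) (n : ℕ), Fintype.card L = 2 * n + 1 → IsEl E → IsArr E X →
    LocData E I K U P → (∀ x, K x ≠ x → X x = K x) →
    Nat.card {W : L → L // W ∈ BijOI I K U P ∧ ¬ LocGood E I K X U P n m C W} *
      Λ ^ (OutL K U P).ncard ≤ C * K₀ ^ n * (2 * n + 1) ^ (OutL K U P).ncard

end BP2
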