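import Mathlib

set_option autoImplicit false

/-!
Counting by codes: a set of maps `w : A → B` such that `w` is determined by a code in `X`, a set
`D w ⊆ A` with at least `d` elements and the restriction of `w` to `A \ D w`.
-/

namespace BP2

open Finset

/-- The coding lemma. -/
theorem card_le_of_code {α β X : Type*} [Fintype α] [DecidableEq α] [Fintype β] [Fintype X]
    (hβ : 0 < Fintype.card β) (S : Finset (α → β)) (c : (α → β) → X) (D : (α → β) → Finset α)
    (d : ℕ) (hd : ∀ w ∈ S, d ≤ (D w).card)
    (h : ∀ w ∈ S, ∀ w' ∈ S, c w = c w' → D w = D w' → (∀ a, a ∉ D w → w a = w' a) → w = w') :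
    S.card ≤ Fintype.card X * 2 ^ Fintype.card α * Fintype.card β ^ (Fintype.card α - d) := by
  classical
  -- the code: `(c w, D w, w` outside `D w)`
  have key : ∀ (x : X) (Z : Finset α),
      (S.filter (fun w => c w = x ∧ D w = Z)).card ≤
        Fintype.card β ^ (Fintype.card α - d) := by
    intro x Z
    by_cases hne : (S.filter (fun w => c w = x ∧ D w = Z)).Nonempty
    · obtain ⟨w₀, hw₀⟩ := hne
      rw [mem_filter] at hw₀
      have hZ : d ≤ Z.card := by rw [← hw₀.2.2]; exact hd w₀ hw₀.1
      have h1 : (S.filter (fun w => c w = x ∧ D w = Z)).card ≤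
          (univ : Finset ({a // a ∉ Z} → β)).card := by
        refine Finset.card_le_card_of_injOn (fun w a => w a.1) (fun _ _ => mem_univ _) ?_
        intro w hw w' hw' heq
        rw [mem_coe, mem_filter] at hw hw'
        refine h w hw.1 w' hw'.1 (by rw [hw.2.1, hw'.2.1]) (by rw [hw.2.2, hw'.2.2]) ?_
        intro a ha
        rw [hw.2.2] at ha
        exact congrFun heq ⟨a, ha⟩
      rw [card_univ, Fintype.card_fun] at h1
      have h2 : Fintype.card {a // a ∉ Z} = Fintype.card α - Z.card := by
        rw [Fintype.card_subtype_compl, Fintype.card_coe]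
      rw [h2] at h1
      exact h1.trans (Nat.pow_le_pow_right hβ (by omega))
    · rw [not_nonempty_iff_eq_empty] at hne
      rw [hne, card_empty]
      exact Nat.zero_le _
  have h1 : S.card = ∑ p : X × Finset α, (S.filter (fun w => c w = p.1 ∧ D w = p.2)).card := by
    have h2 := Finset.card_eq_sum_card_fiberwise (f := fun w => (c w, D w)) (s := S)
      (t := (univ : Finset (X × Finset α))) (fun _ _ => mem_univ _)
    rw [h2]
    refine Finset.sum_congr rfl fun p _ => ?_
    congr 1
    ext w
    simp only [mem_filter, Prod.ext_iff]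
  rw [h1]
  calc ∑ p : X × Finset α, (S.filter (fun w => c w = p.1 ∧ D w = p.2)).card
      ≤ ∑ _p : X × Finset α, Fintype.card β ^ (Fintype.card α - d) :=
        Finset.sum_le_sum fun p _ => key p.1 p.2
    _ = _ := by
        rw [Finset.sum_const, card_univ, Fintype.card_prod, Fintype.card_finset, smul_eq_mul]

end BP2
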