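import Pool.Agent.BP2.MCode
import Pool.Agent.BP2.M.Level

set_option autoImplicit false

/-!
Circles of the graph of two involutions `E`, `Y`, where `Y` is a fixed partial matching `K` together
with a bijection `w` between two sets `A`, `B` of loose labels: few `w` have many circles.
-/

namespace BP2

open Finset Function

variable {L : Type*}

/-- `x` and `y` are in the same component of the graph of `E` and `Y`. -/
def EqC (E Y : L → L) (x y : L) : Prop := Relation.EqvGen (gr E Y) x y

lemma EqC.refl {E Y : L → L} (x : L) : EqC E Y x x := Relation.EqvGen.refl x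

lemma EqC.symm {E Y : L → L} {x y : L} (h : EqC E Y x y) : EqC E Y y x :=
  Relation.EqvGen.symm _ _ h

lemma EqC.trans {E Y : L → L} {x y z : L} (h : EqC E Y x y) (h' : EqC E Y y z) :
    EqC E Y x z := Relation.EqvGen.trans _ _ _ h h'

lemma eqC_E (E Y : L → L) (x : L) : EqC E Y x (E x) := Relation.EqvGen.rel _ _ (Or.inl rfl)

lemma eqC_Y (E Y : L → L) (x : L) : EqC E Y x (Y x) := Relation.EqvGen.rel _ _ (Or.inr rfl)

/-- A closed set which contains a point contains its component. -/
lemma eqC_mem {E Y : L → L} (hE : Involutive E) (hY : Involutive Y) (C : Set L)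
    (h1 : ∀ x ∈ C, E x ∈ C) (h2 : ∀ x ∈ C, Y x ∈ C) {x y : L} (h : EqC E Y x y) :
    x ∈ C ↔ y ∈ C := by
  induction h with
  | rel a b hab =>
    rcases hab with rfl | rfl
    · exact ⟨h1 a, fun h => by have := h1 _ h; rwa [hE a] at this⟩
    · exact ⟨h2 a, fun h => by have := h2 _ h; rwa [hY a] at this⟩
  | refl a => exact Iff.rfl
  | symm a b _ ih => exact ih.symm
  | trans a b c _ _ ih1 ih2 => exact ih1.trans ih2

/-- The parity of a finite set which is closed under an involution. -/
lemma even_card_sub_fixed [DecidableEq L] {E : L → L} (hE : Involutive E) (C : Finset L)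
    (h1 : ∀ x ∈ C, E x ∈ C) : Even (C.filter (fun x => E x ≠ x)).card := by
  have h : (∑ _x ∈ C.filter (fun x => E x ≠ x), (1 : ZMod 2)) = 0 := by
    refine Finset.sum_involution (fun x _ => E x) ?_ ?_ ?_ ?_
    · intro a _
      decide
    · intro a ha _
      rw [mem_filter] at ha
      exact ha.2
    · intro a ha
      rw [mem_filter] at ha ⊢
      refine ⟨h1 a ha.1, ?_⟩
      rw [hE a]
      exact fun h => ha.2 h.symm
    · intro a _
      exact hE a
  rw [Finset.sum_const, nsmul_eq_mul, mul_one] at h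
  exact (ZMod.natCast_eq_zero_iff_even).1 h

/-- In a closed set the numbers of the fixed points of `E` and of `Y` have the same parity. -/
lemma even_fixed [DecidableEq L] {E Y : L → L} (hE : Involutive E) (hY : Involutive Y)
    (C : Finset L) (h1 : ∀ x ∈ C, E x ∈ C) (h2 : ∀ x ∈ C, Y x ∈ C) :
    Even ((C.filter (fun x => E x = x)).card + (C.filter (fun x => Y x = x)).card) := by
  have e1 := even_card_sub_fixed hE C h1
  have e2 := even_card_sub_fixed hY C h2
  have c1 := Finset.card_filter_add_card_filter_not (s := C) (fun x => E x = x)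
  have c2 := Finset.card_filter_add_card_filter_not (s := C) (fun x => Y x = x)
  rw [Nat.even_iff] at *
  simp only [ne_eq] at e1 e2
  omega

/-- The component of `x` is a circle. -/
def Circ (E Y : L → L) (x : L) : Prop := ∀ y, EqC E Y x y → E y ≠ y ∧ Y y ≠ y

/-- The rigid matching `K` and the pairs `(a, w a)`. -/
noncomputable def gw (K : L → L) (A : Set L) (w : L → L) (x : L) : L := by
  classical
  exact if x ∈ A then w x else if h : ∃ a ∈ A, w a = x then h.choose else K x

/-- Data of the matching `w` on the set `A` of loose labels. -/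
structure Mat (K : L → L) (A : Set L) (w : L → L) : Prop where
  inv : Involutive K
  loose : ∀ a ∈ A, K a = a
  loose' : ∀ a ∈ A, K (w a) = w a
  inj : ∀ a ∈ A, ∀ b ∈ A, w a = w b → a = b
  disj : ∀ a ∈ A, w a ∉ A

lemma gw_A {K : L → L} {A : Set L} {w : L → L} {a : L} (ha : a ∈ A) : gw K A w a = w a := by
  classical
  unfold gw
  rw [if_pos ha]

lemma gw_B {K : L → L} {A : Set L} {w : L → L} (h : Mat K A w) {a : L} (ha : a ∈ A) :
    gw K A w (w a) = a := by
  classical
  unfold gw
  have h1 : ∃ b ∈ A, w b = w a := ⟨a, ha, rfl⟩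
  rw [if_neg (h.disj a ha), dif_pos h1]
  exact h.inj _ h1.choose_spec.1 _ ha h1.choose_spec.2

lemma gw_K {K : L → L} {A : Set L} {w : L → L} {x : L} (hx : x ∉ A)
    (hx' : ∀ a ∈ A, w a ≠ x) : gw K A w x = K x := by
  classical
  unfold gw
  rw [if_neg hx, dif_neg]
  rintro ⟨a, ha, h⟩
  exact hx' a ha h

lemma gw_inv {K : L → L} {A : Set L} {w : L → L} (h : Mat K A w) :
    Involutive (gw K A w) := by
  intro x
  by_cases hx : x ∈ A
  · rw [gw_A hx, gw_B h hx]
  by_cases hx' : ∃ a ∈ A, w a = x
  · obtain ⟨a, ha, rfl⟩ := hx'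
    rw [gw_B h ha, gw_A ha]
  · have hx2 : ∀ a ∈ A, w a ≠ x := fun a ha h2 => hx' ⟨a, ha, h2⟩
    rw [gw_K hx hx2]
    by_cases hf : K x = x
    · rw [hf, gw_K hx hx2, hf]
    · rw [gw_K, h.inv x]
      · intro hKx
        have := h.loose _ hKx
        rw [h.inv x] at this
        exact hf this.symm
      · intro a ha h2
        have := h.loose' a ha
        rw [h2, h.inv x] at this
        exact hf this.symm

lemma Mat.mono {K : L → L} {A A' : Set L} {w : L → L} (h : Mat K A w) (hA : A' ⊆ A) :
    Mat K A' w where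
  inv := h.inv
  loose a ha := h.loose a (hA ha)
  loose' a ha := h.loose' a (hA ha)
  inj a ha b hb := h.inj a (hA ha) b (hA hb)
  disj a ha hw := h.disj a (hA ha) (hA hw)

/-- The component of a point in the smaller graph. -/
lemma eqC_mono {K : L → L} {A A' : Set L} {w E : L → L} (h : Mat K A w) (hA : A' ⊆ A) {x y : L}
    (hxy : EqC E (gw K A' w) x y) : EqC E (gw K A w) x y := by
  induction hxy with
  | rel a b hab =>
    rcases hab with rfl | rfl
    · exact eqC_E _ _ _
    · by_cases ha : a ∈ A'
      · rw [gw_A ha]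
        have := eqC_Y E (gw K A w) a
        rwa [gw_A (hA ha)] at this
      by_cases ha' : ∃ c ∈ A', w c = a
      · obtain ⟨c, hc, rfl⟩ := ha'
        rw [gw_B (h.mono hA) hc]
        have := eqC_Y E (gw K A w) (w c)
        rwa [gw_B h (hA hc)] at this
      · have h2 : ∀ c ∈ A', w c ≠ a := fun c hc h3 => ha' ⟨c, hc, h3⟩
        rw [gw_K ha h2]
        by_cases hf : K a = a
        · rw [hf]; exact EqC.refl _
        · have := eqC_Y E (gw K A w) a
          rwa [gw_K] at this
          · intro hc
            exact hf (h.loose _ hc)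
          · intro c hc h3
            apply hf
            rw [← h3]
            exact h.loose' c hc
  | refl a => exact EqC.refl _
  | symm a b _ ih => exact ih.symm
  | trans a b c _ _ ih1 ih2 => exact ih1.trans ih2

/-- The value of `w` at `z`, if the component of `z` is a circle, in terms of `w` outside `Z`. -/
lemma circ_unique [Finite L] {K : L → L} {A Z : Set L} {w E : L → L} (hE : Involutive E)
    (h : Mat K A w) (hZ : Z ⊆ A) (hc : ∀ z ∈ Z, Circ E (gw K A w) z)
    (hd : ∀ z ∈ Z, ∀ z' ∈ Z, EqC E (gw K A w) z z' → z = z') {z : L} (hz : z ∈ Z) (y : L) :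
    (EqC E (gw K (A \ Z) w) z y ∧ gw K (A \ Z) w y = y ∧ y ≠ z) ↔ y = w z := by
  classical
  have hsub : A \ Z ⊆ A := Set.sdiff_subset
  set Y := gw K A w with hY
  set Y0 := gw K (A \ Z) w with hY0
  have hY0i : Involutive Y0 := gw_inv (h.mono hsub)
  -- the fixed points of `Y0` in the component
  have key : ∀ y, EqC E Y0 z y → Y0 y = y → y = z ∨ y = w z := by
    intro y hy hf
    have h1 : EqC E Y z y := eqC_mono h hsub hy
    have h2 := (hc z hz y h1).2
    -- `y` is in `A` or in `w A`
    by_cases hyA : y ∈ A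
    · by_cases hyZ : y ∈ Z
      · exact Or.inl (hd z hz y hyZ h1).symm
      · exfalso
        have h3 : Y0 y = w y := gw_A ⟨hyA, hyZ⟩
        rw [hf] at h3
        exact h.disj y hyA (h3 ▸ hyA)
    · by_cases hyB : ∃ a ∈ A, w a = y
      · obtain ⟨a, ha, rfl⟩ := hyB
        by_cases haZ : a ∈ Z
        · right
          have h4 : EqC E Y z a := by
            refine h1.trans ?_
            have h9 := eqC_Y E Y (w a)
            rw [hY] at h9 ⊢
            rwa [gw_B h ha] at h9
          rw [hd z hz a haZ h4]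
        · exfalso
          have h3 : Y0 (w a) = a := gw_B (h.mono hsub) ⟨ha, haZ⟩
          rw [hf] at h3
          exact h.disj a ha (by rw [h3]; exact ha)
      · exfalso
        have h5 : ∀ a ∈ A, w a ≠ y := fun a ha h6 => hyB ⟨a, ha, h6⟩
        apply h2
        rw [hY, gw_K hyA h5]
        rw [hY0, gw_K (fun h7 => hyA h7.1) (fun a ha => h5 a ha.1)] at hf
        exact hf
  have hzf : Y0 z = z := by
    rw [hY0, gw_K (fun h7 => h7.2 hz)]
    · exact h.loose z (hZ hz)
    · intro a ha h8
      exact h.disj a ha.1 (h8 ▸ hZ hz)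
  have hwzf : Y0 (w z) = w z := by
    rw [hY0, gw_K (fun h7 => h.disj z (hZ hz) h7.1)]
    · exact h.loose' z (hZ hz)
    · intro a ha h8
      exact ha.2 (h.inj a ha.1 z (hZ hz) h8 ▸ hz)
  -- parity
  have hmem : EqC E Y0 z (w z) := by
    by_contra hcon
    have := Fintype.ofFinite L
    set C : Finset L := univ.filter (fun y => EqC E Y0 z y) with hC
    have hC1 : ∀ x ∈ C, E x ∈ C := by
      intro x hx
      rw [hC, mem_filter] at hx ⊢
      exact ⟨mem_univ _, hx.2.trans (eqC_E _ _ _)⟩
    have hC2 : ∀ x ∈ C, Y0 x ∈ C := by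
      intro x hx
      rw [hC, mem_filter] at hx ⊢
      exact ⟨mem_univ _, hx.2.trans (eqC_Y _ _ _)⟩
    have h3 := even_fixed hE hY0i C hC1 hC2
    have h4 : C.filter (fun x => E x = x) = ∅ := by
      rw [filter_eq_empty_iff]
      intro x hx
      rw [hC, mem_filter] at hx
      exact (hc z hz x (eqC_mono h hsub hx.2)).1
    have h5 : C.filter (fun x => Y0 x = x) = {z} := by
      ext x
      rw [mem_filter, mem_singleton, hC, mem_filter]
      constructor
      · rintro ⟨⟨_, hx⟩, hxf⟩
        rcases key x hx hxf with h6 | h6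
        · exact h6
        · exact absurd (h6 ▸ hx) hcon
      · rintro rfl
        exact ⟨⟨mem_univ _, EqC.refl _⟩, hzf⟩
    rw [h4, h5, card_empty, card_singleton] at h3
    exact absurd h3 (by decide)
  have hne : w z ≠ z := fun h6 => h.disj z (hZ hz) (by rw [h6]; exact hZ hz)
  constructor
  · rintro ⟨h1, h2, h3⟩
    rcases key y h1 h2 with h4 | h4
    · exact absurd h4 h3
    · exact h4
  · rintro rfl
    exact ⟨hmem, hwzf, hne⟩

/-- Two matchings with the same circle representatives `Z` and the same values outside `Z` agree. -/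
theorem circ_inj [Finite L] {K : L → L} {A Z : Set L} {w w' E : L → L} (hE : Involutive E)
    (h : Mat K A w) (h' : Mat K A w') (hZ : Z ⊆ A) (hc : ∀ z ∈ Z, Circ E (gw K A w) z)
    (hc' : ∀ z ∈ Z, Circ E (gw K A w') z)
    (hd : ∀ z ∈ Z, ∀ z' ∈ Z, EqC E (gw K A w) z z' → z = z')
    (hd' : ∀ z ∈ Z, ∀ z' ∈ Z, EqC E (gw K A w') z z' → z = z')
    (heq : ∀ a ∈ A, a ∉ Z → w a = w' a) : ∀ a ∈ A, w a = w' a := by
  intro a ha
  by_cases haZ : a ∈ Z
  · have hg : gw K (A \ Z) w = gw K (A \ Z) w' := by
      funext x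
      by_cases hx : x ∈ A \ Z
      · rw [gw_A hx, gw_A hx, heq x hx.1 hx.2]
      by_cases hx' : ∃ c ∈ A \ Z, w c = x
      · obtain ⟨c, hc1, rfl⟩ := hx'
        rw [gw_B (h.mono Set.sdiff_subset) hc1, heq c hc1.1 hc1.2,
          gw_B (h'.mono Set.sdiff_subset) hc1]
      · have h2 : ∀ c ∈ A \ Z, w c ≠ x := fun c hc1 h3 => hx' ⟨c, hc1, h3⟩
        rw [gw_K hx h2, gw_K hx]
        intro c hc1 h3
        exact h2 c hc1 (by rw [heq c hc1.1 hc1.2]; exact h3)
    have h1 := (circ_unique hE h hZ hc hd haZ (w a)).2 rfl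
    rw [hg] at h1
    exact (circ_unique hE h' hZ hc' hd' haZ (w a)).1 h1
  · exact heq a ha haZ

end BP2
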