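import Mathlib

set_option autoImplicit false

/-!
Components of graphs given by involutions of a finite set, and the number of the maps which are
determined by their values at one point of every component.
-/

namespace BP2

open Finset

variable {L : Type*}

/-- The components of the graph with the edges `R`. -/
noncomputable def ncomp [Fintype L] (R : L → L → Prop) : ℕ := by
  classical
  exact Fintype.card (Quotient (Relation.EqvGen.setoid R))

theorem ncomp_eq_natCard [Fintype L] (R : L → L → Prop) :
    ncomp R = Nat.card (Quotient (Relation.EqvGen.setoid R)) := by
  classical
  unfold ncomp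
  rw [Nat.card_eq_fintype_card]

/-- Maps which are determined by one value on every component. -/
theorem card_le_pow_ncomp [Fintype L] {P : Type*} [Fintype P] (R : L → L → Prop)
    (S : Finset (L → P))
    (h : ∀ f ∈ S, ∀ g ∈ S, ∀ x y, R x y → (f x = g x ↔ f y = g y)) :
    S.card ≤ Fintype.card P ^ ncomp R := by
  classical
  have h1 : S.card ≤ (univ : Finset (Quotient (Relation.EqvGen.setoid R) → P)).card := by
    refine Finset.card_le_card_of_injOn (fun f q => f q.out) (fun _ _ => mem_univ _) ?_
    intro f hf g hg hfg
    rw [mem_coe] at hf hg
    funext x
    have h2 : f (Quotient.mk (Relation.EqvGen.setoid R) x).out =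
        g (Quotient.mk (Relation.EqvGen.setoid R) x).out := congrFun hfg _
    have h3 : Relation.EqvGen R (Quotient.mk (Relation.EqvGen.setoid R) x).out x := by
      have h4 : (Relation.EqvGen.setoid R) (Quotient.mk (Relation.EqvGen.setoid R) x).out x :=
        Quotient.exact (Quotient.out_eq (Quotient.mk (Relation.EqvGen.setoid R) x))
      exact h4
    have key : ∀ a b, Relation.EqvGen R a b → (f a = g a ↔ f b = g b) := by
      intro a b hab
      induction hab with
      | rel a b hab => exact h f hf g hg a b hab
      | refl a => exact Iff.rfl
      | symm a b _ ih => exact ih.symm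
      | trans a b c _ _ ih1 ih2 => exact ih1.trans ih2
    exact (key _ _ h3).1 h2
  rw [card_univ, Fintype.card_fun] at h1
  unfold ncomp
  convert h1

end BP2
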